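import Pool.Agent.ZCyc.Curve

/-!
# Existence of points, residue fields
-/

open Polynomial

namespace Pool.Agent.ZCyc

universe u w

section P1
variable {k : Type u} [Field k] {m : ℕ} {ζ : k} {J : Type} [Fintype J] {e : J → k} {a : J → ℕ}
  {L : Type u} [Field L] [Algebra k L] {σ : L ≃ₐ[k] L} {x y : L}

/-- P3a: existence of points -/
theorem exists_place {F : Type*} [Field F] [Algebra k F] {t : F} (ht : Transcendental k t)
    (c : k) : ∃ u : Place k F, u.At t c := by
  set A : Subring F := (Algebra.adjoin k {t}).toSubring with hA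
  have htA : t - algebraMap k F c ∈ A := by
    rw [hA, Subalgebra.mem_toSubring]
    exact sub_mem (Algebra.self_mem_adjoin_singleton k t) (Subalgebra.algebraMap_mem _ c)
  set I : Ideal A := Ideal.span {⟨t - algebraMap k F c, htA⟩} with hI
  have hItop : I ≠ ⊤ := by
    intro h
    rw [Ideal.eq_top_iff_one, hI, Ideal.mem_span_singleton] at h
    obtain ⟨⟨g, hg⟩, h1⟩ := h
    rw [hA, Subalgebra.mem_toSubring, Algebra.adjoin_singleton_eq_range_aeval] at hg
    obtain ⟨p, hp⟩ := hg
    have h2 : (1 : F) = (t - algebraMap k F c) * g := by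
      have := congrArg (Subtype.val) h1
      simpa using this
    have h3 : Polynomial.aeval t ((Polynomial.X - Polynomial.C c) * p - 1) = 0 := by
      rw [map_sub, _root_.map_mul, map_sub, Polynomial.aeval_X, Polynomial.aeval_C, map_one]
      rw [show Polynomial.aeval t p = g from hp, ← h2, sub_self]
    have h4 := (transcendental_iff.1 ht) _ h3
    have h5 := congrArg (Polynomial.eval c) h4
    simp at h5
  obtain ⟨V, hV1, hV2⟩ := Ideal.image_subset_nonunits_valuationSubring I hItop
  have hmem : t - algebraMap k F c ∈ V.nonunits := by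
    apply hV2
    exact ⟨⟨t - algebraMap k F c, htA⟩, Ideal.subset_span rfl, rfl⟩
  have hne : t - algebraMap k F c ≠ 0 := by
    intro h
    apply ht
    rw [sub_eq_zero.1 h]
    exact isAlgebraic_algebraMap c
  refine ⟨⟨V, ?_, ?_⟩, hmem⟩
  · intro a
    apply hV1
    rw [hA, Subalgebra.mem_toSubring]
    exact Subalgebra.algebraMap_mem _ a
  · rintro rfl
    rw [ValuationSubring.mem_nonunits_iff_or] at hmem
    rcases hmem with h | h
    · exact hne h
    · exact h (ValuationSubring.mem_top _)

open scoped IntermediateField in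
private lemma Cyclic.isAlgebraic_all (h : Cyclic m ζ e a σ x y) (hm : 0 < m) (z : L) :
    IsAlgebraic k⟮x⟯ z := by
  have h1 : IntermediateField.adjoin k {x, y} ≤
      (algebraicClosure k⟮x⟯ L).restrictScalars k := by
    rw [IntermediateField.adjoin_le_iff]
    intro w hw
    rw [SetLike.mem_coe, IntermediateField.mem_restrictScalars, mem_algebraicClosure_iff']
    have hx : x ∈ k⟮x⟯ := IntermediateField.mem_adjoin_simple_self k x
    rcases hw with rfl | hw
    · exact (isIntegral_algebraMap (R := k⟮w⟯) (A := L) (x := (⟨w, hx⟩ : k⟮w⟯)))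
    · rw [Set.mem_singleton_iff] at hw
      subst hw
      apply IsIntegral.of_pow hm
      rw [h.eqn]
      have hmem : (∏ j, (x - algebraMap k L (e j)) ^ a j) ∈ k⟮x⟯ := by
        apply prod_mem
        intro j _
        exact pow_mem (sub_mem hx (IntermediateField.algebraMap_mem _ _)) _
      exact (isIntegral_algebraMap (R := k⟮x⟯) (A := L) (x := (⟨_, hmem⟩ : k⟮x⟯)))
  have h2 : z ∈ (algebraicClosure k⟮x⟯ L).restrictScalars k := by
    apply h1
    rw [h.gen]
    exact IntermediateField.mem_top
  rw [IntermediateField.mem_restrictScalars, mem_algebraicClosure_iff] at h2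
  exact h2

open scoped IntermediateField in
/-- P3b: residue fields -/
theorem Cyclic.exists_at [IsAlgClosed k] (h : Cyclic m ζ e a σ x y) (hm : 0 < m) {P : Place k L}
    (hx : x ∈ P.ring) : ∃ α, P.At x α := by
  by_contra hcon
  push Not at hcon
  -- nonzero polynomials in `x` do not vanish at `P`
  have h1 : ∀ p : k[X], p ≠ 0 → ¬ P.Vanishes (aeval x p) := by
    intro p hp hv
    have hs := (IsAlgClosed.splits p).eq_prod_roots
    rw [hs, _root_.map_mul, aeval_C] at hv
    have h2 : P.Vanishes (aeval x (Multiset.map (fun α => X - C α) p.roots).prod) := by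
      have h3 := Place.Vanishes.mul' P hv (P.const_mem (p.leadingCoeff)⁻¹)
      rw [map_inv₀, inv_mul_cancel_left₀ (by simpa using hp)] at h3
      exact h3
    have h4 : ∀ s : Multiset k, ¬ P.Vanishes (aeval x (Multiset.map (fun α => X - C α) s).prod) := by
      intro s
      induction s using Multiset.induction_on with
      | empty =>
        intro h5
        have := P.const_unit (one_ne_zero (α := k))
        apply this
        simpa using h5
      | cons b s ih =>
        intro h5
        rw [Multiset.map_cons, Multiset.prod_cons, _root_.map_mul, P.vanishes_iff,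
          _root_.map_mul] at h5
        have h6 := hcon b
        rw [Place.At, P.vanishes_iff, not_lt] at h6
        rw [P.vanishes_iff, not_lt] at ih
        have h7 : aeval x (X - C b) = x - algebraMap k L b := by simp
        rw [h7] at h5
        exact absurd h5 (not_lt.2 (one_le_mul h6 ih))
    exact h4 _ h2
  -- `k(x)` is contained in the ring
  have h2 : ∀ z ∈ k⟮x⟯, z ∈ P.ring := by
    intro z hz
    rw [IntermediateField.mem_adjoin_simple_iff] at hz
    obtain ⟨r, s, rfl⟩ := hz
    have hr : ∀ p : k[X], aeval x p ∈ P.ring := by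
      intro p
      rw [aeval_eq_sum_range]
      apply sum_mem
      intro i _
      rw [Algebra.smul_def]
      exact mul_mem (P.const_mem _) (pow_mem hx i)
    rw [div_eq_mul_inv]
    apply mul_mem (hr r)
    by_cases hs : s = 0
    · rw [hs, map_zero, inv_zero]
      exact zero_mem _
    · have h3 := h1 s hs
      rw [P.vanishes_iff_or] at h3
      push Not at h3
      exact h3.2
  -- the ring is integrally closed
  apply P.ne_top
  rw [eq_top_iff]
  intro z _
  have hz : IsIntegral k⟮x⟯ z := (h.isAlgebraic_all hm z).isIntegral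
  obtain ⟨p, hp, hp'⟩ := hz
  let j : k⟮x⟯ →+* P.ring :=
    { toFun := fun w => ⟨w.1, h2 w.1 w.2⟩
      map_one' := rfl
      map_mul' := fun _ _ => rfl
      map_zero' := rfl
      map_add' := fun _ _ => rfl }
  have hz' : IsIntegral P.ring z := by
    refine ⟨p.map j, hp.map j, ?_⟩
    rw [eval₂_map]
    exact hp'
  obtain ⟨w, hw⟩ := (IsIntegrallyClosed.isIntegral_iff (R := P.ring) (K := L)).1 hz'
  rw [← hw]
  exact w.2

end P1

end Pool.Agent.ZCyc
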