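import Pool.Agent.ZCyc.Defs

/-!
# Basic facts on places
-/

open scoped IntermediateField

namespace Pool.Agent.ZCyc

universe u w

variable {k : Type*} [Field k] {F : Type*} [Field F] [Algebra k F]

namespace Place

lemma mem_map {F' : Type*} [Field F'] [Algebra k F'] (v : Place k F) (e : F ≃ₐ[k] F') (x : F') :
    x ∈ (v.map e).ring ↔ e.symm x ∈ v.ring := ValuationSubring.mem_comap

lemma vanishes_iff (v : Place k F) (f : F) : v.Vanishes f ↔ v.ring.valuation f < 1 :=
  ValuationSubring.mem_nonunits_iff _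

lemma vanishes_iff_or (v : Place k F) (f : F) : v.Vanishes f ↔ f = 0 ∨ f⁻¹ ∉ v.ring :=
  ValuationSubring.mem_nonunits_iff_or _

lemma vanishes_map {F' : Type*} [Field F'] [Algebra k F'] (v : Place k F) (e : F ≃ₐ[k] F')
    (x : F') : (v.map e).Vanishes x ↔ v.Vanishes (e.symm x) := by
  rw [vanishes_iff_or, vanishes_iff_or, mem_map, map_inv₀]
  simp

lemma map_map {F' F'' : Type*} [Field F'] [Algebra k F'] [Field F''] [Algebra k F'']
    (v : Place k F) (e : F ≃ₐ[k] F') (e' : F' ≃ₐ[k] F'') :
    (v.map e).map e' = v.map (e.trans e') := by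
  apply Place.ext
  ext x
  rw [mem_map, mem_map, mem_map]
  rfl

lemma map_one (v : Place k F) : v.map (1 : F ≃ₐ[k] F) = v := by
  apply Place.ext
  ext x
  rw [mem_map]
  rfl

variable (v : Place k F)

lemma Vanishes.mem {f : F} (h : v.Vanishes f) : f ∈ v.ring := v.ring.nonunits_subset h

lemma vanishes_zero : v.Vanishes 0 := by
  rw [vanishes_iff, _root_.map_zero]
  exact zero_lt_one

lemma Vanishes.add {f g : F} (hf : v.Vanishes f) (hg : v.Vanishes g) : v.Vanishes (f + g) := by
  rw [vanishes_iff] at *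
  exact v.ring.valuation.map_add_lt hf hg

lemma Vanishes.neg {f : F} (hf : v.Vanishes f) : v.Vanishes (-f) := by
  rw [vanishes_iff] at *
  rwa [Valuation.map_neg]

lemma Vanishes.sub {f g : F} (hf : v.Vanishes f) (hg : v.Vanishes g) : v.Vanishes (f - g) := by
  rw [sub_eq_add_neg]
  exact hf.add v (hg.neg v)

lemma Vanishes.mul {f g : F} (hf : v.Vanishes f) (hg : g ∈ v.ring) : v.Vanishes (f * g) := by
  rw [vanishes_iff] at *
  rw [_root_.map_mul]
  exact mul_lt_one_of_lt_of_le hf ((v.ring.valuation_le_one_iff g).2 hg)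

lemma Vanishes.mul' {f g : F} (hf : v.Vanishes f) (hg : g ∈ v.ring) : v.Vanishes (g * f) := by
  rw [mul_comm]
  exact hf.mul v hg

lemma vanishes_prod {ι : Type*} {s : Finset ι} {f : ι → F} (h : v.Vanishes (∏ i ∈ s, f i)) :
    ∃ i ∈ s, v.Vanishes (f i) := by
  classical
  by_contra hcon
  push Not at hcon
  have h1 : ∀ i ∈ s, 1 ≤ v.ring.valuation (f i) := by
    intro i hi
    have := hcon i hi
    rw [vanishes_iff] at this
    exact not_lt.1 this
  rw [vanishes_iff, map_prod] at h
  exact absurd h (not_lt.2 (Finset.one_le_prod' h1))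

lemma vanishes_of_pow {f : F} {n : ℕ} (h : v.Vanishes (f ^ n)) : v.Vanishes f := by
  have h1 : v.Vanishes (∏ _i ∈ Finset.range n, f) := by
    rwa [Finset.prod_const, Finset.card_range]
  obtain ⟨_, _, h2⟩ := v.vanishes_prod h1
  exact h2

lemma Vanishes.pow {f : F} (h : v.Vanishes f) {n : ℕ} (hn : n ≠ 0) : v.Vanishes (f ^ n) := by
  obtain ⟨n, rfl⟩ := Nat.exists_eq_succ_of_ne_zero hn
  rw [pow_succ]
  exact h.mul' v (pow_mem (h.mem v) n)

lemma const_unit {c : k} (hc : c ≠ 0) : ¬ v.Vanishes (algebraMap k F c) := by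
  intro h
  rw [vanishes_iff_or] at h
  rcases h with h | h
  · exact hc (by simpa using h)
  · rw [← map_inv₀] at h
    exact h (v.const_mem _)

/-- the value of the function `f` at `v` is `c` -/
def At (v : Place k F) (f : F) (c : k) : Prop := v.Vanishes (f - algebraMap k F c)

variable {v}

lemma At.mem {f : F} {c : k} (h : v.At f c) : f ∈ v.ring := by
  have := v.ring.add_mem _ _ (Vanishes.mem v h) (v.const_mem c)
  simpa using this

lemma At.unique {f : F} {c c' : k} (h : v.At f c) (h' : v.At f c') : c = c' := by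
  by_contra hne
  have h1 : v.Vanishes (algebraMap k F (c' - c)) := by
    have := Vanishes.sub v h h'
    rw [map_sub]
    convert this using 1
    ring
  exact v.const_unit (sub_ne_zero.2 (Ne.symm hne)) h1

lemma at_const (c : k) : v.At (algebraMap k F c) c := by
  unfold At
  rw [sub_self]
  exact v.vanishes_zero

lemma at_zero_iff {f : F} : v.At f 0 ↔ v.Vanishes f := by
  unfold At
  rw [_root_.map_zero, sub_zero]

lemma At.add {f g : F} {c d : k} (hf : v.At f c) (hg : v.At g d) : v.At (f + g) (c + d) := by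
  have := Vanishes.add v hf hg
  unfold At
  rw [map_add]
  convert this using 1
  ring

lemma At.sub {f g : F} {c d : k} (hf : v.At f c) (hg : v.At g d) : v.At (f - g) (c - d) := by
  have := Vanishes.sub v hf hg
  unfold At
  rw [map_sub]
  convert this using 1
  ring

lemma At.mul {f g : F} {c d : k} (hf : v.At f c) (hg : v.At g d) : v.At (f * g) (c * d) := by
  have h1 := Vanishes.mul v hf hg.mem
  have h2 := Vanishes.mul' v hg (v.const_mem c)
  have := Vanishes.add v h1 h2
  unfold At
  rw [_root_.map_mul]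
  convert this using 1
  ring

lemma At.pow {f : F} {c : k} (hf : v.At f c) (n : ℕ) : v.At (f ^ n) (c ^ n) := by
  induction n with
  | zero =>
    have := at_const (v := v) (1 : k)
    simpa using this
  | succ n ih =>
    rw [pow_succ, pow_succ]
    exact ih.mul hf

lemma At.prod {ι : Type*} {s : Finset ι} {f : ι → F} {c : ι → k} (h : ∀ i ∈ s, v.At (f i) (c i)) :
    v.At (∏ i ∈ s, f i) (∏ i ∈ s, c i) := by
  classical
  induction s using Finset.induction_on with
  | empty =>
    have := at_const (v := v) (1 : k)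
    simpa using this
  | insert a s ha ih =>
    rw [Finset.prod_insert ha, Finset.prod_insert ha]
    exact (h a (Finset.mem_insert_self a s)).mul (ih fun i hi => h i (Finset.mem_insert_of_mem hi))

lemma At.sum {ι : Type*} {s : Finset ι} {f : ι → F} {c : ι → k} (h : ∀ i ∈ s, v.At (f i) (c i)) :
    v.At (∑ i ∈ s, f i) (∑ i ∈ s, c i) := by
  classical
  induction s using Finset.induction_on with
  | empty =>
    have := at_const (v := v) (0 : k)
    simpa using this
  | insert a s ha ih =>
    rw [Finset.sum_insert ha, Finset.sum_insert ha]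
    exact (h a (Finset.mem_insert_self a s)).add (ih fun i hi => h i (Finset.mem_insert_of_mem hi))

lemma At.neg {f : F} {c : k} (hf : v.At f c) : v.At (-f) (-c) := by
  have := (at_const (v := v) (0 : k)).sub hf
  simpa using this

lemma At.inv {f : F} {c : k} (hf : v.At f c) (hc : c ≠ 0) : v.At f⁻¹ c⁻¹ := by
  have hf0 : f ≠ 0 := by
    rintro rfl
    exact hc (hf.unique (by simpa using at_const (v := v) (0 : k)))
  have hfu : f⁻¹ ∈ v.ring := by
    by_contra h
    have h1 : v.Vanishes f := (v.vanishes_iff_or f).2 (Or.inr h)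
    exact hc (hf.unique (at_zero_iff.2 h1))
  have h1 := (at_const (v := v) c⁻¹)
  have h2 : v.Vanishes ((f - algebraMap k F c) * (-(f⁻¹ * algebraMap k F c⁻¹))) :=
    Vanishes.mul v hf (neg_mem (mul_mem hfu (v.const_mem _)))
  unfold At
  convert h2 using 1
  rw [map_inv₀]
  have hc' : algebraMap k F c ≠ 0 := by simpa using hc
  field_simp
  ring

lemma At.div {f g : F} {c d : k} (hf : v.At f c) (hg : v.At g d) (hd : d ≠ 0) :
    v.At (f / g) (c / d) := by
  rw [div_eq_mul_inv, div_eq_mul_inv]
  exact hf.mul (hg.inv hd)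

lemma At.aeval {f : F} {c : k} (hf : v.At f c) (p : Polynomial k) :
    v.At (Polynomial.aeval f p) (p.eval c) := by
  rw [Polynomial.aeval_eq_sum_range, Polynomial.eval_eq_sum_range]
  apply At.sum
  intro i _
  rw [Algebra.smul_def]
  exact (at_const _).mul (hf.pow i)

lemma at_map {F' : Type*} [Field F'] [Algebra k F'] (v : Place k F) (e : F ≃ₐ[k] F')
    (x : F') (c : k) : (v.map e).At x c ↔ v.At (e.symm x) c := by
  unfold At
  rw [vanishes_map, map_sub, AlgEquiv.commutes]

/-- one of the `m`-th roots -/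
lemma exists_root_at {ζ : k} {m : ℕ} (hζ : IsPrimitiveRoot ζ m) (hm : 0 < m) {y : F} {b : k}
    (h : v.At (y ^ m) (b ^ m)) : ∃ j : ℕ, j < m ∧ v.At y (ζ ^ j * b) := by
  haveI : NeZero m := ⟨hm.ne'⟩
  have hζ' : IsPrimitiveRoot (algebraMap k F ζ) m :=
    hζ.map_of_injective (algebraMap k F).injective
  have h1 : v.Vanishes (∏ ξ ∈ Polynomial.nthRootsFinset m (1 : F),
      (y - ξ * algebraMap k F b)) := by
    rw [← hζ'.pow_sub_pow_eq_prod_sub_mul y (algebraMap k F b) hm, ← map_pow]
    exact h
  obtain ⟨ξ, hξ, h2⟩ := v.vanishes_prod h1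
  rw [Polynomial.mem_nthRootsFinset hm] at hξ
  obtain ⟨j, hj, hj'⟩ := hζ'.eq_pow_of_pow_eq_one hξ
  refine ⟨j, hj, ?_⟩
  unfold At
  rw [_root_.map_mul, map_pow, hj']
  exact h2

end Place

end Pool.Agent.ZCyc
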