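import Mathlib

/-!
# The covering
-/

set_option autoImplicit false

open Polynomial

universe u

namespace Pool.Agent.ZCyc

private theorem cover_enum {Ω : Type*} (s : Multiset Ω) {n : ℕ} (hs : Multiset.card s = n) :
    ∃ x : Fin n → Ω, s = Finset.univ.val.map x := by
  subst hs
  induction s using Quotient.inductionOn with
  | h l =>
    refine ⟨l.get, ?_⟩
    change (l : Multiset Ω) = (Finset.univ : Finset (Fin l.length)).val.map l.get
    rw [Fin.univ_val_map, List.ofFn_get]

/-- P6: the covering -/
theorem exists_cover {k : Type u} [Field k] [IsAlgClosed k] [CharZero k] {m : ℕ} (hm : 0 < m)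
    {n : ℕ} {q h : k[X]} (hq : q.Monic) (hn : q.natDegree = n) (hh : h.degree < q.degree)
    (T : RatFunc k) (g : k[X]) : ∃ (F : Type u) (_ : Field F) (_ : Algebra k F)
    (_ : Algebra (RatFunc k) F) (_ : IsScalarTower k (RatFunc k) F)
    (_ : FiniteDimensional (RatFunc k) F) (_ : IsGalois (RatFunc k) F) (x y : Fin n → F),
    q.map (algebraMap k F) + C (algebraMap (RatFunc k) F T) * h.map (algebraMap k F) =
      ∏ i, (X - C (x i)) ∧ ∀ i, y i ^ m = aeval (x i) g := by
  classical
  let Ω := AlgebraicClosure (RatFunc k)
  let P : (RatFunc k)[X] := q.map (algebraMap k (RatFunc k)) + C T * h.map (algebraMap k (RatFunc k))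
  have hqd : (q.map (algebraMap k (RatFunc k))).degree = q.degree :=
    degree_map_eq_of_injective (algebraMap k (RatFunc k)).injective q
  have hPd : (C T * h.map (algebraMap k (RatFunc k))).degree < (q.map (algebraMap k (RatFunc k))).degree := by
    have h1 : (C T * h.map (algebraMap k (RatFunc k))).degree ≤ (h.map (algebraMap k (RatFunc k))).degree := by
      refine (degree_mul_le _ _).trans ?_
      calc (C T).degree + (h.map (algebraMap k (RatFunc k))).degree ≤
          0 + (h.map (algebraMap k (RatFunc k))).degree := by gcongr; exact degree_C_le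
        _ = _ := zero_add _
    refine h1.trans_lt ?_
    rw [hqd, degree_map_eq_of_injective (algebraMap k (RatFunc k)).injective h]
    exact hh
  have hPm : P.Monic := (hq.map _).add_of_left hPd
  have hPn : P.natDegree = n := by
    rw [← hn]
    have := degree_add_eq_left_of_degree_lt hPd
    rw [hqd] at this
    exact natDegree_eq_of_degree_eq this
  have hsp : (P.map (algebraMap (RatFunc k) Ω)).Splits := IsAlgClosed.splits _
  obtain ⟨x, hx⟩ := cover_enum (P.map (algebraMap (RatFunc k) Ω)).roots (n := n) (by
    rw [← hPn, ← natDegree_map (algebraMap (RatFunc k) Ω)]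
    exact hsp.natDegree_eq_card_roots.symm)
  have hprod : P.map (algebraMap (RatFunc k) Ω) = ∏ i, (X - C (x i)) := by
    have h1 := hsp.eq_prod_roots_of_monic (hPm.map _)
    rw [h1, hx, Multiset.map_map]
    rfl
  have hy : ∀ i, ∃ y : Ω, y ^ m = aeval (x i) (g.map (algebraMap k (RatFunc k))) := fun i =>
    IsAlgClosed.exists_pow_nat_eq _ hm
  choose y hy using hy
  let S : Set Ω := Set.range x ∪ Set.range y
  let L1 : IntermediateField (RatFunc k) Ω := IntermediateField.adjoin (RatFunc k) S
  have hfd : FiniteDimensional (RatFunc k) L1 := by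
    have : Finite S := by
      exact ((Set.finite_range x).union (Set.finite_range y)).to_subtype
    exact IntermediateField.finiteDimensional_adjoin fun z _ =>
      Algebra.IsIntegral.isIntegral z
  let F : IntermediateField (RatFunc k) Ω := IntermediateField.normalClosure (RatFunc k) L1 Ω
  have hLF : L1 ≤ F := IntermediateField.le_normalClosure L1
  have hxF : ∀ i, x i ∈ F := fun i => hLF (IntermediateField.subset_adjoin (RatFunc k) S (Or.inl ⟨i, rfl⟩))
  have hyF : ∀ i, y i ∈ F := fun i => hLF (IntermediateField.subset_adjoin (RatFunc k) S (Or.inr ⟨i, rfl⟩))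
  have : Normal (RatFunc k) F := normalClosure.normal (RatFunc k) L1 Ω
  have : FiniteDimensional (RatFunc k) F := normalClosure.is_finiteDimensional (RatFunc k) L1 Ω
  have : IsGalois (RatFunc k) F := {}
  refine ⟨F, inferInstance, inferInstance, inferInstance, inferInstance, inferInstance,
    inferInstance, fun i => ⟨x i, hxF i⟩, fun i => ⟨y i, hyF i⟩, ?_, fun i => ?_⟩
  · apply Polynomial.map_injective (algebraMap F Ω) (algebraMap F Ω).injective
    rw [Polynomial.map_add, Polynomial.map_mul, map_C, Polynomial.map_map, Polynomial.map_map,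
      Polynomial.map_prod]
    have e1 : P.map (algebraMap (RatFunc k) Ω) = q.map ((algebraMap F Ω).comp (algebraMap k F)) +
        C (algebraMap F Ω (algebraMap (RatFunc k) F T)) *
          h.map ((algebraMap F Ω).comp (algebraMap k F)) := by
      simp only [P]
      rw [Polynomial.map_add, Polynomial.map_mul, map_C, Polynomial.map_map, Polynomial.map_map]
      rfl
    rw [← e1, hprod]
    refine Finset.prod_congr rfl fun i _ => ?_
    rw [Polynomial.map_sub, map_X, map_C]
    rfl
  · apply (algebraMap F Ω).injective
    have : IsScalarTower k F Ω := IsScalarTower.of_algebraMap_eq fun _ => rfl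
    have e1 : algebraMap F Ω (aeval (⟨x i, hxF i⟩ : F) g) = aeval (x i) (g.map (algebraMap k (RatFunc k))) := by
      rw [aeval_map_algebraMap, ← aeval_algebraMap_apply]
      rfl
    rw [e1, ← hy i, map_pow]
    rfl

end Pool.Agent.ZCyc
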