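import Pool.Agent.ZCyc.Curve

/-!
# The base of the pencil (ZC5)

The rational functions `T` and `R` of the parameter.
-/

open Polynomial

namespace Pool.Agent.ZCyc

universe u w

section Base

variable {k : Type u} [Field k]

/-- `∏ j, (1 + T β_j) ^ a_j` is an `m`-th power if `1 + T β_none = U ^ m (1 + T β_(b j₀))` -/
private theorem prod_eq {J C : Type} [Fintype J] [DecidableEq J] [Fintype C]
    [DecidableEq C] {m : ℕ} {a : J → ℕ} {b : J → C} {M : C → ℕ}
    (hM : ∀ B, ∑ j with b j = B, a j = m * M B) (j₀ : J) {β : Option C → k} {T U : RatFunc k}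
    (hU : 1 + T * RatFunc.C (β none) = U ^ m * (1 + T * RatFunc.C (β (some (b j₀))))) :
    (U ^ a j₀ * ∏ B, (1 + T * RatFunc.C (β (some B))) ^ M B) ^ m =
      ∏ j, (1 + T * RatFunc.C (β (if j = j₀ then none else some (b j)))) ^ a j := by
  have h1 : ∀ j, (1 + T * RatFunc.C (β (if j = j₀ then none else some (b j)))) ^ a j =
      (if j = j₀ then (U ^ m) ^ a j₀ else 1) * (1 + T * RatFunc.C (β (some (b j)))) ^ a j := by
    intro j
    split_ifs with h
    · subst h
      rw [hU, mul_pow]
    · rw [one_mul]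
  rw [Finset.prod_congr rfl fun j _ => h1 j, Finset.prod_mul_distrib, Finset.prod_ite_eq',
    if_pos (Finset.mem_univ _)]
  have h2 : ∏ j, (1 + T * RatFunc.C (β (some (b j)))) ^ a j =
      ∏ B, (1 + T * RatFunc.C (β (some B))) ^ (m * M B) := by
    rw [← Finset.prod_fiberwise Finset.univ b]
    refine Finset.prod_congr rfl fun B _ => ?_
    rw [← hM B, ← Finset.prod_pow_eq_pow_sum]
    refine Finset.prod_congr rfl fun j hj => ?_
    rw [(Finset.mem_filter.1 hj).2]
  rw [h2, mul_pow, ← Finset.prod_pow, ← pow_mul, ← pow_mul, mul_comm (a j₀) m]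
  congr 1
  refine Finset.prod_congr rfl fun B _ => ?_
  rw [← pow_mul, mul_comm (M B) m]

private theorem map_C {F : Type u} [Field F] [Algebra k F] [Algebra (RatFunc k) F]
    [IsScalarTower k (RatFunc k) F] (c : k) :
    algebraMap (RatFunc k) F (RatFunc.C c) = algebraMap k F c := by
  rw [← RatFunc.algebraMap_eq_C, ← IsScalarTower.algebraMap_apply]

private theorem at_C {F : Type u} [Field F] [Algebra k F] [Algebra (RatFunc k) F]
    [IsScalarTower k (RatFunc k) F] {u : Place k F} (c : k) :
    u.At (algebraMap (RatFunc k) F (RatFunc.C c)) c := by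
  rw [map_C]
  exact Place.at_const c

private theorem at_one {F : Type u} [Field F] [Algebra k F] {u : Place k F} :
    u.At (1 : F) (1 : k) := by
  have := Place.at_const (v := u) (1 : k)
  rwa [map_one] at this

/-- the value of `1 + T β` -/
private theorem at_factor {F : Type u} [Field F] [Algebra k F] [Algebra (RatFunc k) F]
    [IsScalarTower k (RatFunc k) F] {u : Place k F} {T : RatFunc k} {t : k}
    (hT : u.At (algebraMap (RatFunc k) F T) t) (c : k) :
    u.At (algebraMap (RatFunc k) F (1 + T * RatFunc.C c)) (1 + t * c) := by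
  rw [map_add, map_one, map_mul]
  exact at_one.add (hT.mul (at_C c))

/-- the value of `R` -/
private theorem at_R {C : Type} [Fintype C] {M : C → ℕ} {β : Option C → k}
    {F : Type u} [Field F] [Algebra k F] [Algebra (RatFunc k) F]
    [IsScalarTower k (RatFunc k) F] {u : Place k F} {T U : RatFunc k}
    (hT : u.At (algebraMap (RatFunc k) F T) 0) (hU : u.At (algebraMap (RatFunc k) F U) 1) (n : ℕ) :
    u.At (algebraMap (RatFunc k) F (U ^ n * ∏ B, (1 + T * RatFunc.C (β (some B))) ^ M B)) 1 := by
  rw [map_mul, map_pow, map_prod]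
  have h1 : u.At (∏ B, algebraMap (RatFunc k) F ((1 + T * RatFunc.C (β (some B))) ^ M B))
      (∏ _B : C, (1 : k)) := by
    refine Place.At.prod fun B _ => ?_
    rw [map_pow]
    have h := (at_factor hT (β (some B))).pow (M B)
    rwa [zero_mul, add_zero, one_pow] at h
  have h2 := (hU.pow n).mul h1
  rwa [one_pow, Finset.prod_const_one, one_mul] at h2

end Base

/-- P5: the base of the pencil -/
theorem exists_base {k : Type u} [Field k] {J C : Type} [Fintype J] [DecidableEq J] [Fintype C]
    [DecidableEq C] {m : ℕ} (hm : 0 < m) {a : J → ℕ} {b : J → C}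
    (hsum : ∀ B, m ∣ ∑ j with b j = B, a j) (j₀ : J) {β : Option C → k} (hβ : ∃ B, β B ≠ 0) :
    ∃ (T R : RatFunc k) (s₀ s₁ : k) (B : Option C),
      R ^ m = ∏ j, (1 + T * RatFunc.C (β (if j = j₀ then none else some (b j)))) ^ a j ∧
      (∀ {F : Type u} [Field F] [Algebra k F] [Algebra (RatFunc k) F]
        [IsScalarTower k (RatFunc k) F] (u : Place k F),
        u.At (algebraMap (RatFunc k) F RatFunc.X) s₀ →
          u.At (algebraMap (RatFunc k) F T) 0 ∧ u.At (algebraMap (RatFunc k) F R) 1) ∧
      (∀ {F : Type u} [Field F] [Algebra k F] [Algebra (RatFunc k) F]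
        [IsScalarTower k (RatFunc k) F] (u : Place k F),
        u.At (algebraMap (RatFunc k) F RatFunc.X) s₁ →
          u.Vanishes (algebraMap (RatFunc k) F (1 + T * RatFunc.C (β B)))) := by
  choose M hM using hsum
  by_cases h01 : β none = β (some (b j₀))
  · -- first case
    obtain ⟨B, hB⟩ := hβ
    refine ⟨RatFunc.X, 1 ^ a j₀ * ∏ B, (1 + RatFunc.X * RatFunc.C (β (some B))) ^ M B, 0,
      -(β B)⁻¹, B, prod_eq hM j₀ (by rw [h01, one_pow, one_mul]), ?_, ?_⟩
    · intro F _ _ _ _ u hu
      refine ⟨hu, at_R hu ?_ _⟩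
      rw [map_one]
      exact at_one
    · intro F _ _ _ _ u hu
      rw [← Place.at_zero_iff]
      have h := at_factor hu (β B)
      rwa [neg_mul, inv_mul_cancel₀ hB, add_neg_cancel] at h
  by_cases h1 : β (some (b j₀)) = 0
  · -- third case
    have h0 : β none ≠ 0 := fun h => h01 (h.trans h1.symm)
    have h0' : (RatFunc.C (β none) : RatFunc k) ≠ 0 := by
      rw [Ne, map_eq_zero]
      exact h0
    have hT : (1 : RatFunc k) + (RatFunc.X ^ m - 1) / RatFunc.C (β none) * RatFunc.C (β none) =
        RatFunc.X ^ m := by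
      rw [div_mul_cancel₀ _ h0']
      ring
    refine ⟨(RatFunc.X ^ m - 1) / RatFunc.C (β none), RatFunc.X ^ a j₀ *
      ∏ B, (1 + (RatFunc.X ^ m - 1) / RatFunc.C (β none) * RatFunc.C (β (some B))) ^ M B, 1, 0,
      none, prod_eq hM j₀ (by rw [hT, h1, map_zero, mul_zero, add_zero, mul_one]), ?_, ?_⟩
    · intro F _ _ _ _ u hu
      have hT0 : u.At (algebraMap (RatFunc k) F ((RatFunc.X ^ m - 1) / RatFunc.C (β none))) 0 := by
        rw [map_div₀, map_sub, map_pow, map_one]
        have h := ((hu.pow m).sub at_one).div (at_C (β none)) h0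
        rwa [one_pow, sub_self, zero_div] at h
      exact ⟨hT0, at_R hT0 hu _⟩
    · intro F _ _ _ _ u hu
      rw [hT, map_pow, ← Place.at_zero_iff]
      have h := hu.pow m
      rwa [zero_pow hm.ne'] at h
  · -- second case
    have hne : β none - β (some (b j₀)) ≠ 0 := sub_ne_zero.2 h01
    have hX : (RatFunc.X : RatFunc k) ≠ 0 := RatFunc.X_ne_zero
    have hD : (RatFunc.C (β none) * RatFunc.X ^ m - RatFunc.C (β (some (b j₀))) : RatFunc k) ≠ 0 := by
      have h2 : (RatFunc.C (β none) * RatFunc.X ^ m - RatFunc.C (β (some (b j₀))) : RatFunc k) =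
          algebraMap k[X] (RatFunc k)
            (Polynomial.C (β none) * X ^ m - Polynomial.C (β (some (b j₀)))) := by
        rw [map_sub, map_mul, map_pow, RatFunc.algebraMap_X, RatFunc.algebraMap_C,
          RatFunc.algebraMap_C]
      rw [h2]
      refine RatFunc.algebraMap_ne_zero ?_
      intro h
      have h3 := congrArg (fun p => p.coeff 0) h
      simp only [coeff_sub, coeff_C_mul, coeff_X_pow, coeff_C_zero, coeff_zero] at h3
      rw [if_neg hm.ne, mul_zero, zero_sub, neg_eq_zero] at h3
      exact h1 h3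
    set D : RatFunc k := RatFunc.C (β none) * RatFunc.X ^ m - RatFunc.C (β (some (b j₀))) with hDdef
    have hU : (1 : RatFunc k) + (1 - RatFunc.X ^ m) / D * RatFunc.C (β none) =
        (RatFunc.X⁻¹) ^ m * (1 + (1 - RatFunc.X ^ m) / D * RatFunc.C (β (some (b j₀)))) := by
      rw [inv_pow]
      have hXm : (RatFunc.X : RatFunc k) ^ m ≠ 0 := pow_ne_zero _ hX
      field_simp
      rw [hDdef]
      ring
    refine ⟨(1 - RatFunc.X ^ m) / D, (RatFunc.X⁻¹) ^ a j₀ *
      ∏ B, (1 + (1 - RatFunc.X ^ m) / D * RatFunc.C (β (some B))) ^ M B, 1, 0,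
      some (b j₀), prod_eq hM j₀ hU, ?_, ?_⟩
    · intro F _ _ _ _ u hu
      have hDv : u.At (algebraMap (RatFunc k) F D) (β none * 1 ^ m - β (some (b j₀))) := by
        rw [hDdef, map_sub, map_mul, map_pow]
        exact ((at_C _).mul (hu.pow m)).sub (at_C _)
      rw [one_pow, mul_one] at hDv
      have hT0 : u.At (algebraMap (RatFunc k) F ((1 - RatFunc.X ^ m) / D)) 0 := by
        rw [map_div₀, map_sub, map_pow, map_one]
        have h := (at_one.sub (hu.pow m)).div hDv hne
        rwa [one_pow, sub_self, zero_div] at h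
      refine ⟨hT0, at_R hT0 ?_ _⟩
      rw [map_inv₀]
      have h := hu.inv one_ne_zero
      rwa [inv_one] at h
    · intro F _ _ _ _ u hu
      have hDv : u.At (algebraMap (RatFunc k) F D) (β none * 0 ^ m - β (some (b j₀))) := by
        rw [hDdef, map_sub, map_mul, map_pow]
        exact ((at_C _).mul (hu.pow m)).sub (at_C _)
      rw [zero_pow hm.ne', mul_zero, zero_sub] at hDv
      have h2 : u.At (algebraMap (RatFunc k) F ((1 - RatFunc.X ^ m) / D))
          ((1 - 0 ^ m) / (-β (some (b j₀)))) := by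
        rw [map_div₀, map_sub, map_pow, map_one]
        exact (at_one.sub (hu.pow m)).div hDv (neg_ne_zero.2 h1)
      rw [← Place.at_zero_iff]
      have h := at_factor h2 (β (some (b j₀)))
      rw [zero_pow hm.ne', sub_zero] at h
      convert h using 1
      field_simp
      ring

end Pool.Agent.ZCyc
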