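import Mathlib

/-!
# A pencil through the given divisor
-/

open Polynomial

namespace Pool.Agent.ZCyc

/-- P4: a pencil through the given divisor -/
theorem exists_pencil {k : Type*} [Field k] {J C : Type} [Fintype J] [Fintype C] [Nonempty C]
    {e : J → k} (he : Function.Injective e) {b : J → C} (hb : Function.Surjective b) {q : k[X]}
    (hq : q.Monic) (hcard : Fintype.card J < q.natDegree + Fintype.card C) :
    ∃ (h : k[X]) (β : C → k), h.degree < q.degree ∧ (∃ B, β B ≠ 0) ∧
      ∀ j, h.eval (e j) = β (b j) * q.eval (e j) := by
  classical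
  have hq0 : q ≠ 0 := hq.ne_zero
  rcases le_or_gt (Fintype.card J) q.natDegree with hle | hlt
  · -- `n ≥ N`
    set r : k[X] := (∏ j, (Polynomial.X - Polynomial.C (e j))) *
      Polynomial.X ^ (q.natDegree - Fintype.card J) with hr
    have hP : (∏ j, (Polynomial.X - Polynomial.C (e j)) : k[X]).Monic :=
      monic_prod_of_monic _ _ fun j _ => monic_X_sub_C _
    have hrm : r.Monic := hP.mul (monic_X_pow _)
    have hPd : (∏ j, (Polynomial.X - Polynomial.C (e j)) : k[X]).natDegree = Fintype.card J := by
      rw [natDegree_prod_of_monic _ _ fun j _ => monic_X_sub_C _]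
      simp
    have hrd : r.natDegree = q.natDegree := by
      rw [hr, hP.natDegree_mul (monic_X_pow _), hPd, natDegree_X_pow]
      omega
    have hrd' : q.degree = r.degree := by
      rw [degree_eq_natDegree hq0, degree_eq_natDegree hrm.ne_zero, hrd]
    refine ⟨r - q, fun _ => -1, ?_, ?_, ?_⟩
    · rw [hrd']
      exact degree_sub_lt_left hrd'.symm hrm.ne_zero (by rw [hrm.leadingCoeff, hq.leadingCoeff])
    · exact ⟨Classical.arbitrary C, by simp⟩
    · intro j
      have : r.eval (e j) = 0 := by
        rw [hr, eval_mul, eval_prod, Finset.prod_eq_zero (Finset.mem_univ j) (by simp), zero_mul]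
      rw [eval_sub, this]
      ring
  · -- `n < N`
    let Φ : (degreeLT k q.natDegree × (C → k)) →ₗ[k] (J → k) :=
      { toFun := fun z j => (z.1 : k[X]).eval (e j) - z.2 (b j) * q.eval (e j)
        map_add' := by
          intro z w
          funext j
          simp only [Prod.fst_add, Submodule.coe_add, eval_add, Prod.snd_add, Pi.add_apply]
          ring
        map_smul' := by
          intro c z
          funext j
          simp only [Prod.smul_fst, Submodule.coe_smul, eval_smul, Prod.smul_snd, Pi.smul_apply,
            smul_eq_mul, RingHom.id_apply]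
          ring }
    have : FiniteDimensional k (degreeLT k q.natDegree) :=
      LinearEquiv.finiteDimensional (degreeLTEquiv k q.natDegree).symm
    have hfin : Module.finrank k (degreeLT k q.natDegree) = q.natDegree := by
      rw [(degreeLTEquiv k q.natDegree).finrank_eq]
      simp
    have hker : LinearMap.ker Φ ≠ ⊥ := by
      apply LinearMap.ker_ne_bot_of_finrank_lt
      rw [Module.finrank_prod, hfin]
      simpa using hcard
    obtain ⟨z, hz, hz0⟩ := Submodule.exists_mem_ne_zero_of_ne_bot hker
    have hz' : ∀ j, (z.1 : k[X]).eval (e j) = z.2 (b j) * q.eval (e j) := by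
      intro j
      have := congrFun (LinearMap.mem_ker.1 hz) j
      exact sub_eq_zero.1 this
    have hd : (z.1 : k[X]).degree < q.degree := by
      have := mem_degreeLT.1 z.1.2
      rwa [degree_eq_natDegree hq0]
    refine ⟨z.1, z.2, hd, ?_, hz'⟩
    by_contra hβ
    push Not at hβ
    apply hz0
    have h2 : z.2 = 0 := funext hβ
    have h1 : (z.1 : k[X]) = 0 := by
      apply Polynomial.eq_zero_of_natDegree_lt_card_of_eval_eq_zero (z.1 : k[X]) he
      · intro j
        rw [hz' j, hβ, zero_mul]
      · by_cases h0 : (z.1 : k[X]) = 0
        · rw [h0, natDegree_zero]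
          omega
        · have := (natDegree_lt_natDegree_iff h0).2 hd
          omega
    exact Prod.ext (Subtype.ext h1) h2

end Pool.Agent.ZCyc
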