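import Pool.Agent.ZCyc.Basic

/-!
# Specialisation of a divisor in a pencil
-/

open Polynomial

namespace Pool.Agent.ZCyc

open scoped Classical in
private lemma exists_perm_of_map {k : Type*} {n : ℕ} {α : Fin n → k} {r : Fin n → Fin n}
    (h : Multiset.map (fun i => α (r i)) Finset.univ.val = Multiset.map α Finset.univ.val) :
    ∃ ρ : Equiv.Perm (Fin n), ∀ i, α (r i) = α (ρ i) := by
  have hc : ∀ c : k, Fintype.card {i // α (r i) = c} = Fintype.card {l // α l = c} := by
    intro c
    have h1 := congrArg (Multiset.count c) h
    rw [Multiset.count_map, Multiset.count_map] at h1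
    rw [Fintype.card_subtype, Fintype.card_subtype, Finset.card_def, Finset.card_def,
      Finset.filter_val, Finset.filter_val]
    rw [Multiset.filter_congr (q := fun i => c = α (r i)) (fun i _ => eq_comm),
      Multiset.filter_congr (q := fun l => c = α l) (fun l _ => eq_comm)]
    exact h1
  refine ⟨((Equiv.sigmaFiberEquiv fun i => α (r i)).symm.trans
    (Equiv.sigmaCongrRight fun c => Fintype.equivOfCardEq (hc c))).trans
    (Equiv.sigmaFiberEquiv α), fun i => ?_⟩
  exact ((Fintype.equivOfCardEq (hc (α (r i)))) ⟨i, rfl⟩).2.symm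

/-- The divisor specialises to the given one. -/
theorem exists_perm {k : Type*} [Field k] [Infinite k] {F : Type*} [Field F] [Algebra k F]
    {n : ℕ} {α : Fin n → k} {h : k[X]} {t : F} {x : Fin n → F}
    (hx : (∏ l, (X - C (α l)) : k[X]).map (algebraMap k F) + C t * h.map (algebraMap k F) =
      ∏ i, (X - C (x i))) (hh : h.degree < n) {u : Place k F} (ht : u.At t 0) :
    ∃ ρ : Equiv.Perm (Fin n), ∀ i, u.At (x i) (α (ρ i)) := by
  have htm : t ∈ u.ring := Place.At.mem ht
  have hev : ∀ z : F, (∏ l, (z - algebraMap k F (α l))) + t * aeval z h = ∏ i, (z - x i) := by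
    intro z
    have h1 := congrArg (Polynomial.eval z) hx
    simp only [Polynomial.map_prod, Polynomial.map_sub, Polynomial.map_X, Polynomial.map_C,
      Polynomial.eval_add, Polynomial.eval_mul, Polynomial.eval_C, Polynomial.eval_prod,
      Polynomial.eval_sub, Polynomial.eval_X, Polynomial.eval_map] at h1
    rw [Polynomial.aeval_def]
    exact h1
  -- the roots are integral
  have hxm : ∀ i, x i ∈ u.ring := by
    intro i
    set ι : k →+* u.ring := (algebraMap k F).codRestrict u.ring.toSubring u.const_mem with hι
    have hιc : ∀ c : k, ((ι c : u.ring) : F) = algebraMap k F c := fun c => rfl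
    set P : (u.ring)[X] := (∏ l, (X - C (α l)) : k[X]).map ι + C ⟨t, htm⟩ * h.map ι with hP
    have hmon : P.Monic := by
      refine Polynomial.Monic.add_of_left ((Polynomial.monic_prod_of_monic _ _
        fun l _ => Polynomial.monic_X_sub_C (α l)).map ι) ?_
      have h1 : ((∏ l, (X - C (α l)) : k[X]).map ι).degree = n := by
        rw [Polynomial.degree_map, Polynomial.degree_prod]
        simp
      rw [h1]
      refine lt_of_le_of_lt (Polynomial.degree_mul_le _ _) ?_
      rw [Polynomial.degree_map]
      refine lt_of_le_of_lt ?_ hh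
      calc (C (⟨t, htm⟩ : u.ring)).degree + h.degree ≤ 0 + h.degree :=
            add_le_add_left Polynomial.degree_C_le _
        _ = h.degree := zero_add _
    have hroot : Polynomial.eval₂ (algebraMap u.ring F) (x i) P = 0 := by
      have h1 := hev (x i)
      rw [Finset.prod_eq_zero (f := fun j => x i - x j) (Finset.mem_univ i) (sub_self _)] at h1
      rw [hP, Polynomial.eval₂_add, Polynomial.eval₂_mul, Polynomial.eval₂_C,
        Polynomial.eval₂_map, Polynomial.eval₂_map]
      have h2 : (algebraMap u.ring F).comp ι = algebraMap k F := by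
        ext c
        exact hιc c
      rw [h2, ← Polynomial.aeval_def, ← Polynomial.aeval_def, map_prod]
      simp only [map_sub, Polynomial.aeval_X, Polynomial.aeval_C]
      exact h1
    obtain ⟨y, hy⟩ := IsIntegrallyClosed.algebraMap_eq_of_integral
      (R := u.ring) (K := F) ⟨P, hmon, hroot⟩
    rw [← hy]
    exact y.2
  -- each root specialises to one of the `α l`
  have hr : ∀ i, ∃ l, u.At (x i) (α l) := by
    intro i
    have h1 := hev (x i)
    rw [Finset.prod_eq_zero (f := fun j => x i - x j) (Finset.mem_univ i) (sub_self _)] at h1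
    have h2 : u.Vanishes (∏ l, (x i - algebraMap k F (α l))) := by
      have h3 : (∏ l, (x i - algebraMap k F (α l))) = t * (-aeval (x i) h) := by
        linear_combination h1
      rw [h3]
      refine Place.Vanishes.mul u (Place.at_zero_iff.mp ht) (u.ring.neg_mem _ ?_)
      rw [Polynomial.aeval_eq_sum_range]
      refine sum_mem fun j _ => ?_
      rw [Algebra.smul_def]
      exact u.ring.mul_mem _ _ (u.const_mem _) (pow_mem (hxm i) j)
    obtain ⟨l, -, hl⟩ := Place.vanishes_prod u h2
    exact ⟨l, hl⟩
  choose r hr using hr
  have hpoly : (∏ i, (X - C (α (r i))) : k[X]) = ∏ l, (X - C (α l)) := by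
    refine Polynomial.funext fun c => ?_
    rw [Polynomial.eval_prod, Polynomial.eval_prod]
    simp only [Polynomial.eval_sub, Polynomial.eval_X, Polynomial.eval_C]
    have h1 := hev (algebraMap k F c)
    have h2 : u.At (∏ i, (algebraMap k F c - x i)) (∏ i, (c - α (r i))) :=
      Place.At.prod fun i _ => (Place.at_const c).sub (hr i)
    have h3 : u.At ((∏ l, (algebraMap k F c - algebraMap k F (α l))) +
        t * aeval (algebraMap k F c) h) ((∏ l, (c - α l)) + 0 * Polynomial.aeval c h) := by
      refine Place.At.add (Place.At.prod fun l _ => (Place.at_const c).sub (Place.at_const _)) ?_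
      exact ht.mul (Place.At.aeval (Place.at_const c) h)
    rw [h1, zero_mul, add_zero] at h3
    exact Place.At.unique h2 h3
  have hroots := congrArg Polynomial.roots hpoly
  rw [Finset.prod_eq_multiset_prod, Finset.prod_eq_multiset_prod] at hroots
  have e1 : ∀ s : Fin n → k, Multiset.map (fun i => (X - C (s i) : k[X])) Finset.univ.val =
      Multiset.map (fun a => (X - C a : k[X])) (Multiset.map s Finset.univ.val) := by
    intro s
    rw [Multiset.map_map]
    rfl
  rw [e1 fun i => α (r i), e1 α, Polynomial.roots_multiset_prod_X_sub_C,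
    Polynomial.roots_multiset_prod_X_sub_C] at hroots
  obtain ⟨ρ, hρ⟩ := exists_perm_of_map hroots
  refine ⟨ρ, fun i => ?_⟩
  rw [← hρ i]
  exact hr i

end Pool.Agent.ZCyc
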