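import Pool.Agent.ZCyc.Curve

/-!
# A change of coordinates on a superelliptic curve
-/

namespace Pool.Agent.ZCyc

universe u w

section Change

variable {k : Type u} [Field k] {m : ℕ} {ζ : k} {J : Type} [Fintype J] {e : J → k} {a : J → ℕ}
  {L : Type u} [Field L] [Algebra k L] {σ : L ≃ₐ[k] L} {x y : L}

private lemma exists_center [Infinite k] (e : J → k) (x : L) {n : ℕ} (P : Fin n → Place k L) :
    ∃ c : k, (∀ j, e j - c ≠ 0) ∧ ∀ l, ¬ (P l).Vanishes (x - algebraMap k L c) := by
  have h1 : (Set.range e).Finite := Set.finite_range e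
  have h2 : (⋃ l, {c : k | (P l).Vanishes (x - algebraMap k L c)}).Finite := by
    refine Set.finite_iUnion fun l => ?_
    refine Set.Subsingleton.finite ?_
    intro c hc c' hc'
    exact Place.At.unique (v := P l) (f := x) hc hc'
  obtain ⟨c, hc⟩ := (h1.union h2).infinite_compl.nonempty
  refine ⟨c, fun j hj => hc (Or.inl ⟨j, sub_eq_zero.1 hj⟩), fun l hl => hc (Or.inr ?_)⟩
  exact Set.mem_iUnion.2 ⟨l, hl⟩

/-- P10: coordinates regular at finitely many given points -/
theorem Cyclic.change [IsAlgClosed k] (h : Cyclic m ζ e a σ x y) (hm : 0 < m)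
    (hsum : m ∣ ∑ j, a j) {n : ℕ} (P : Fin n → Place k L) :
    ∃ (e' : J → k) (x' y' : L), Cyclic m ζ e' a σ x' y' ∧ ∀ l, x' ∈ (P l).ring := by
  have : Infinite k := IsAlgClosed.instInfinite
  obtain ⟨c, hc, hP⟩ := exists_center e x P
  obtain ⟨M, hM⟩ := hsum
  obtain ⟨γ, hγ⟩ := IsAlgClosed.exists_pow_nat_eq (∏ j, (c - e j) ^ a j) hm
  have hce : ∀ j, c - e j ≠ 0 := fun j hj => hc j (by rw [← neg_sub, hj, neg_zero])
  have hγ0 : γ ≠ 0 := by
    intro h0
    rw [h0, zero_pow hm.ne'] at hγ
    exact Finset.prod_ne_zero_iff.2 (fun j _ => pow_ne_zero _ (hce j)) hγ.symm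
  have hxc : x - algebraMap k L c ≠ 0 := by
    intro h0
    apply h.transc
    rw [sub_eq_zero.1 h0]
    exact isAlgebraic_algebraMap c
  have hγL : algebraMap k L γ ≠ 0 := by simpa using hγ0
  set z := x - algebraMap k L c with hz
  -- the factors
  have hfac : ∀ j, x - algebraMap k L (e j) =
      algebraMap k L (c - e j) * z * (z⁻¹ - algebraMap k L (e j - c)⁻¹) := by
    intro j
    have h1 : algebraMap k L (e j - c) ≠ 0 := (map_ne_zero _).2 (hc j)
    have h2 : algebraMap k L (c - e j) = - algebraMap k L (e j - c) := by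
      rw [← map_neg, neg_sub]
    rw [map_inv₀, h2]
    have h3 : -algebraMap k L (e j - c) * z * (z⁻¹ - (algebraMap k L (e j - c))⁻¹) =
        z * ((algebraMap k L (e j - c)) * (algebraMap k L (e j - c))⁻¹) -
          algebraMap k L (e j - c) * (z * z⁻¹) := by ring
    rw [h3, mul_inv_cancel₀ h1, mul_inv_cancel₀ hxc, hz, map_sub]
    ring
  have hy : y ^ m = algebraMap k L γ ^ m * (z ^ M) ^ m *
      ∏ j, (z⁻¹ - algebraMap k L (e j - c)⁻¹) ^ a j := by
    rw [h.eqn, Finset.prod_congr rfl fun j _ => by rw [hfac j, mul_pow, mul_pow],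
      Finset.prod_mul_distrib, Finset.prod_mul_distrib, ← map_pow, hγ, map_prod,
      Finset.prod_congr rfl fun j _ => (map_pow (algebraMap k L) (c - e j) (a j)),
      Finset.prod_pow_eq_pow_sum, hM, ← pow_mul, mul_comm m M]
  refine ⟨fun j => (e j - c)⁻¹, z⁻¹, y * (algebraMap k L γ * z ^ M)⁻¹, ?_, ?_⟩
  · have hden : algebraMap k L γ * z ^ M ≠ 0 := mul_ne_zero hγL (pow_ne_zero _ hxc)
    constructor
    · intro halg
      apply h.transc
      have h1 : IsAlgebraic k (z⁻¹)⁻¹ := halg.inv
      rw [inv_inv] at h1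
      have h2 : x = z + algebraMap k L c := by rw [hz]; ring
      rw [h2]
      exact h1.add (isAlgebraic_algebraMap c)
    · rw [eq_top_iff, ← h.gen, IntermediateField.adjoin_le_iff]
      set K := IntermediateField.adjoin k {z⁻¹, y * (algebraMap k L γ * z ^ M)⁻¹} with hK
      have hz' : z⁻¹ ∈ K := IntermediateField.subset_adjoin _ _ (by simp)
      have hzK : z ∈ K := by
        have := inv_mem hz'
        rwa [inv_inv] at this
      have hy' : y * (algebraMap k L γ * z ^ M)⁻¹ ∈ K :=
        IntermediateField.subset_adjoin _ _ (by simp)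
      have hxK : x ∈ K := by
        have h2 : x = z + algebraMap k L c := by rw [hz]; ring
        rw [h2]
        exact add_mem hzK (K.algebraMap_mem c)
      have hyK : y ∈ K := by
        have h2 : y = y * (algebraMap k L γ * z ^ M)⁻¹ * (algebraMap k L γ * z ^ M) := by
          rw [mul_assoc, inv_mul_cancel₀ hden, mul_one]
        rw [h2]
        exact mul_mem hy' (mul_mem (K.algebraMap_mem γ) (pow_mem hzK M))
      rintro s (rfl | rfl)
      · exact hxK
      · exact hyK
    · rw [mul_pow, hy, inv_pow, mul_pow]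
      have h1 : algebraMap k L γ ^ m * (z ^ M) ^ m ≠ 0 :=
        mul_ne_zero (pow_ne_zero _ hγL) (pow_ne_zero _ (pow_ne_zero _ hxc))
      rw [mul_comm, ← mul_assoc, inv_mul_cancel₀ h1, one_mul]
    · intro i j hij
      have h1 : (e i - c)⁻¹ = (e j - c)⁻¹ := hij
      have h2 := inv_injective h1
      exact h.inj (by simpa using h2)
    · exact h.ndvd
    · rw [map_inv₀, hz, map_sub, h.fix, AlgEquiv.commutes]
    · have h1 : σ z = z := by rw [hz, map_sub, h.fix, AlgEquiv.commutes]
      rw [map_mul, map_inv₀, map_mul, map_pow, h1, AlgEquiv.commutes, h.act, mul_assoc]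
  · intro l
    by_contra hcon
    exact hP l ((Place.vanishes_iff_or _ _).2 (Or.inr hcon))

end Change

end Pool.Agent.ZCyc
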