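import Pool.Agent.ZCyc.Places

/-!
# Morphisms with given coordinate functions

A pair of elements `x'`, `y'` of the function field `F` of a curve which satisfies the equation of
the curve with function field `L = k(x, y)` gives a morphism.
-/

open Polynomial

namespace Pool.Agent.ZCyc

universe u w

private lemma comp_alg {k F : Type*} [Field k] [Field F] [Algebra k F] [Algebra (RatFunc k) F]
    [IsScalarTower k (RatFunc k) F] [Algebra.IsAlgebraic (RatFunc k) F] {t : F}
    (ht : Transcendental k t) : Algebra.IsAlgebraic (IntermediateField.adjoin k {t}) F := by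
  have h1 : IsTranscendenceBasis k (fun _ : Unit => (X : k[X])) := IsTranscendenceBasis.polynomial _ _
  have h0 : Algebra.IsAlgebraic k[X] (RatFunc k) := IsLocalization.isAlgebraic _ (nonZeroDivisors k[X])
  have h2 := h1.algebraMap_comp (A := RatFunc k)
  have h3 := h2.algebraMap_comp (A := F)
  have h4 := h3.lift_cardinalMk_eq_trdeg
  have h5 : AlgebraicIndependent k (fun _ : Unit => t) :=
    algebraicIndependent_unique_type_iff.2 ht
  have h6 := h5.isTranscendenceBasis_of_lift_trdeg_le_of_finite h4.ge
  have h7 := h6.isAlgebraic_field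
  rwa [Set.range_const] at h7

private lemma comp_mem {k F : Type*} [Field k] [Field F] [Algebra k F] (P : Place k F)
    {K : IntermediateField k F} (hK : ∀ z ∈ K, z ∈ P.ring) {z : F} (hz : IsAlgebraic K z) :
    z ∈ P.ring := by
  have h1 : IsIntegral K z := hz.isIntegral
  obtain ⟨p, hp, hpz⟩ := h1
  let g : K →+* P.ring := (K.val : K →+* F).codRestrict P.ring.toSubring fun c => hK c c.2
  have h2 : IsIntegral P.ring z := by
    refine ⟨p.map g, hp.map g, ?_⟩
    rw [eval₂_map]
    exact hpz
  obtain ⟨y, hy⟩ := IsIntegrallyClosed.isIntegral_iff.1 h2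
  rw [← hy]
  exact y.2

private lemma comp_val {k : Type u} [Field k] {m : ℕ} {ζ : k} {J : Type} [Fintype J] {e : J → k}
    {a : J → ℕ} {L : Type u} [Field L] [Algebra k L] {σ : L ≃ₐ[k] L} {x y : L}
    (h : Cyclic m ζ e a σ x y) {P : Place k L} {α : k} (hx : P.At x α) :
    P.At (y ^ m) (∏ j, (α - e j) ^ a j) := by
  rw [h.eqn]
  exact Place.At.prod fun j _ => (hx.sub (Place.at_const (e j))).pow _

private lemma comp_pow_act {k : Type u} [Field k] {m : ℕ} {ζ : k} {J : Type} [Fintype J]
    {e : J → k} {a : J → ℕ} {L : Type u} [Field L] [Algebra k L] {σ : L ≃ₐ[k] L} {x y : L}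
    (h : Cyclic m ζ e a σ x y) (r : ℕ) :
    (σ ^ r) x = x ∧ (σ ^ r) y = algebraMap k L ζ ^ r * y := by
  induction r with
  | zero => simp
  | succ r ih =>
    rw [pow_succ, AlgEquiv.mul_apply, AlgEquiv.mul_apply, h.fix, h.act, map_mul, ih.1, ih.2,
      AlgEquiv.commutes]
    exact ⟨rfl, by ring⟩

private lemma comp_finite {k : Type u} [Field k] {m : ℕ} {ζ : k} {J : Type} [Fintype J]
    {e : J → k} {a : J → ℕ} {L : Type u} [Field L] [Algebra k L] {σ : L ≃ₐ[k] L} {x y : L}
    (h : Cyclic m ζ e a σ x y) (hm : 0 < m) :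
    Algebra.IsAlgebraic (IntermediateField.adjoin k {x}) L := by
  constructor
  intro z
  have hz : z ∈ IntermediateField.adjoin k {x, y} := by
    rw [h.gen]
    exact IntermediateField.mem_top
  have hle : IntermediateField.adjoin k {x, y} ≤
      (algebraicClosure (IntermediateField.adjoin k {x}) L).restrictScalars k := by
    rw [IntermediateField.adjoin_le_iff]
    rintro s (rfl | rfl)
    · change s ∈ algebraicClosure (IntermediateField.adjoin k {s}) L
      rw [mem_algebraicClosure_iff]
      exact isAlgebraic_algebraMap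
        (⟨s, IntermediateField.mem_adjoin_simple_self k s⟩ : IntermediateField.adjoin k {s})
    · change s ∈ algebraicClosure (IntermediateField.adjoin k {x}) L
      rw [mem_algebraicClosure_iff]
      have h1 : s ^ m ∈ IntermediateField.adjoin k {x} := by
        rw [h.eqn]
        refine prod_mem fun j _ => pow_mem (sub_mem ?_ ?_) _
        · exact IntermediateField.mem_adjoin_simple_self k x
        · exact IntermediateField.algebraMap_mem _ _
      have h2 : IsAlgebraic (IntermediateField.adjoin k {x}) (s ^ m) :=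
        isAlgebraic_algebraMap (⟨s ^ m, h1⟩ : IntermediateField.adjoin k {x})
      exact h2.of_pow hm
  exact (mem_algebraicClosure_iff).1 (hle hz)

private lemma comp_embed {k L Ω : Type*} [Field k] [Field L] [Algebra k L] [Field Ω]
    [Algebra k Ω] [IsAlgClosed Ω] {x : L} (hx : Transcendental k x)
    [Algebra.IsAlgebraic (IntermediateField.adjoin k {x}) L] {x' : Ω}
    (hx' : Transcendental k x') : ∃ f : L →ₐ[k] Ω, f x = x' := by
  let g : IntermediateField.adjoin k {x} →ₐ[k] Ω :=
    ((IntermediateField.adjoin k {x'}).val.comp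
      (RatFunc.algEquivOfTranscendental x' hx').toAlgHom).comp
        (RatFunc.algEquivOfTranscendental x hx).symm.toAlgHom
  obtain ⟨f, hf⟩ := IsAlgClosed.surjective_domRestrict_of_isAlgebraic (E := L) g
  refine ⟨f, ?_⟩
  have h1 := congrArg (fun φ : IntermediateField.adjoin k {x} →ₐ[k] Ω =>
    φ ⟨x, IntermediateField.mem_adjoin_simple_self k x⟩) hf
  have h2 : (RatFunc.algEquivOfTranscendental x hx).symm
      ⟨x, IntermediateField.mem_adjoin_simple_self k x⟩ = RatFunc.X := by
    rw [AlgEquiv.symm_apply_eq]
    apply Subtype.ext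
    exact (RatFunc.algEquivOfTranscendental_X x hx).symm
  have h3 : g ⟨x, IntermediateField.mem_adjoin_simple_self k x⟩ = x' := by
    change (((RatFunc.algEquivOfTranscendental x' hx') ((RatFunc.algEquivOfTranscendental x hx).symm
      ⟨x, IntermediateField.mem_adjoin_simple_self k x⟩) : IntermediateField.adjoin k {x'}) : Ω) = x'
    rw [h2]
    exact RatFunc.algEquivOfTranscendental_X x' hx'
  exact h1.trans h3

/-- the image of a point under the morphism given by the embedding `f` -/
private def comp_comap {k L F : Type*} [Field k] [Field L] [Algebra k L] [Field F] [Algebra k F]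
    (f : L →ₐ[k] F) {t : L} (halg : Algebra.IsAlgebraic (IntermediateField.adjoin k {f t}) F)
    (u : Place k F) : Place k L where
  ring := u.ring.comap (f : L →+* F)
  const_mem := by
    intro c
    rw [ValuationSubring.mem_comap]
    have : (f : L →+* F) (algebraMap k L c) = algebraMap k F c := f.commutes c
    rw [this]
    exact u.const_mem c
  ne_top := by
    intro htop
    apply u.ne_top
    ext z
    refine ⟨fun _ => ValuationSubring.mem_top z, fun _ => ?_⟩
    refine comp_mem u (K := IntermediateField.adjoin k {f t}) ?_ (halg.isAlgebraic z)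
    intro w hw
    have hle : IntermediateField.adjoin k {f t} ≤ f.fieldRange := by
      rw [IntermediateField.adjoin_le_iff]
      rintro s rfl
      exact ⟨t, rfl⟩
    obtain ⟨l, rfl⟩ := hle hw
    have h1 : l ∈ u.ring.comap (f : L →+* F) := by
      rw [htop]
      exact ValuationSubring.mem_top l
    exact ValuationSubring.mem_comap.1 h1

private lemma comp_comap_at {k L F : Type*} [Field k] [Field L] [Algebra k L] [Field F]
    [Algebra k F] (f : L →ₐ[k] F) {t : L}
    (halg : Algebra.IsAlgebraic (IntermediateField.adjoin k {f t}) F)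
    (u : Place k F) {z : L} {c : k} (h : u.At (f z) c) : (comp_comap f halg u).At z c := by
  unfold Place.At at *
  rw [Place.vanishes_iff_or] at *
  have h1 : f (z - algebraMap k L c) = f z - algebraMap k F c := by
    rw [map_sub, AlgHom.commutes]
  rw [← h1] at h
  rcases h with h | h
  · left
    exact (map_eq_zero f).1 h
  · right
    intro hcon
    apply h
    have h2 := ValuationSubring.mem_comap.1 hcon
    have h3 : (f : L →+* F) (z - algebraMap k L c)⁻¹ = (f (z - algebraMap k L c))⁻¹ := map_inv₀ f _
    rw [h3] at h2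
    exact h2

private lemma comp_const {k F : Type*} [Field k] [IsAlgClosed k] [Field F] [Algebra k F] {t : F}
    (ht : IsAlgebraic k t) : ∃ c, algebraMap k F c = t :=
  minpoly.mem_range_of_degree_eq_one k t
    (IsAlgClosed.degree_eq_one_of_irreducible k (minpoly.irreducible ht.isIntegral))

/-- The morphism with given coordinate functions. -/
theorem Cyclic.component {k : Type u} [Field k] {m : ℕ} {ζ : k} {J : Type} [Fintype J] {e : J → k}
    {a : J → ℕ} {L : Type u} [Field L] [Algebra k L] {σ : L ≃ₐ[k] L} {x y : L}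
    [IsAlgClosed k] [CharZero k] (h : Cyclic m ζ e a σ x y)
    (hζ : IsPrimitiveRoot ζ m) (hm : 0 < m) {F : Type u} [Field F] [Algebra k F]
    [Algebra (RatFunc k) F] [IsScalarTower k (RatFunc k) F] [Algebra.IsAlgebraic (RatFunc k) F]
    {x' y' : F} (h' : y' ^ m = ∏ j, (x' - algebraMap k F (e j)) ^ a j) :
    ∃ ψ : Place k F → Place k L, ((∃ p, ∀ v, ψ v = p) ∨
      ∃ f : L →ₐ[k] F, ∀ v, (ψ v).ring = v.ring.comap (f : L →+* F)) ∧
      ∀ u c, (u.At x' c → (ψ u).At x c) ∧ (u.At y' c → (ψ u).At y c) := by
  have : NeZero m := ⟨hm.ne'⟩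
  by_cases hx' : IsAlgebraic k x'
  · obtain ⟨c, rfl⟩ := comp_const hx'
    have h1 : y' ^ m = algebraMap k F (∏ j, (c - e j) ^ a j) := by
      rw [h', map_prod]
      exact Finset.prod_congr rfl fun j _ => by rw [map_pow, map_sub]
    have hy' : IsAlgebraic k y' := by
      refine IsAlgebraic.of_pow hm ?_
      rw [h1]
      exact isAlgebraic_algebraMap _
    obtain ⟨b, rfl⟩ := comp_const hy'
    have h2 : b ^ m = ∏ j, (c - e j) ^ a j := by
      rw [← map_pow] at h1
      exact (algebraMap k F).injective h1
    obtain ⟨P, hP⟩ := exists_place h.transc c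
    have h3 := comp_val h hP
    rw [← h2] at h3
    obtain ⟨r, _, hr⟩ := Place.exists_root_at hζ hm h3
    have hz : ζ ^ r ≠ 0 := pow_ne_zero _ (hζ.ne_zero hm.ne')
    refine ⟨fun _ => P.map (σ ^ r), Or.inl ⟨_, fun _ => rfl⟩, fun u d => ⟨fun hd => ?_, fun hd => ?_⟩⟩
    · rw [Place.At.unique hd (Place.at_const c), Place.at_map]
      have h4 : (σ ^ r).symm x = x := by
        rw [AlgEquiv.symm_apply_eq, (comp_pow_act h r).1]
      rw [h4]
      exact hP
    · rw [Place.At.unique hd (Place.at_const b), Place.at_map]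
      have h4 : (σ ^ r).symm y = algebraMap k L (ζ ^ r)⁻¹ * y := by
        rw [AlgEquiv.symm_apply_eq, map_mul, AlgEquiv.commutes, (comp_pow_act h r).2, ← map_pow,
          ← mul_assoc, ← map_mul, inv_mul_cancel₀ hz, map_one, one_mul]
      rw [h4]
      have h5 := (Place.at_const (v := P) (ζ ^ r)⁻¹).mul hr
      rwa [← mul_assoc, inv_mul_cancel₀ hz, one_mul] at h5
  · have halgL := comp_finite h hm
    let Ω := AlgebraicClosure F
    have hx'' : Transcendental k (algebraMap F Ω x') := by
      intro hcon
      exact hx' ((isAlgebraic_algebraMap_iff (algebraMap F Ω).injective).1 hcon)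
    obtain ⟨f₁, hf₁⟩ := comp_embed (Ω := Ω) h.transc hx''
    have hy0 : y' ≠ 0 := by
      rintro rfl
      rw [zero_pow hm.ne'] at h'
      obtain ⟨j, _, hj⟩ := Finset.prod_eq_zero_iff.1 h'.symm
      have hj' : x' - algebraMap k F (e j) = 0 := pow_eq_zero_iff (n := a j) (fun h0 =>
        h.ndvd j (h0 ▸ dvd_zero m)) |>.1 hj
      apply hx'
      rw [sub_eq_zero.1 hj']
      exact isAlgebraic_algebraMap _
    have hy0' : algebraMap F Ω y' ≠ 0 := by
      rwa [_root_.map_ne_zero]
    have hpow : (f₁ y) ^ m = (algebraMap F Ω y') ^ m := by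
      rw [← map_pow, ← map_pow, h.eqn, h', map_prod, map_prod]
      refine Finset.prod_congr rfl fun j _ => ?_
      rw [map_pow, map_pow, map_sub, map_sub, hf₁, AlgHom.commutes, ← IsScalarTower.algebraMap_apply]
    have hζ' : IsPrimitiveRoot (algebraMap k Ω ζ) m :=
      hζ.map_of_injective (algebraMap k Ω).injective
    obtain ⟨r, _, hr⟩ := hζ'.eq_pow_of_pow_eq_one (ξ := f₁ y / algebraMap F Ω y') (by
      rw [div_pow, hpow, div_self (pow_ne_zero _ hy0')])
    rw [eq_div_iff hy0'] at hr
    let f₂ : L →ₐ[k] Ω := f₁.comp ((σ ^ r).symm : L →ₐ[k] L)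
    have hf₂x : f₂ x = algebraMap F Ω x' := by
      change f₁ ((σ ^ r).symm x) = _
      rw [show (σ ^ r).symm x = x by rw [AlgEquiv.symm_apply_eq, (comp_pow_act h r).1], hf₁]
    have hf₂y : f₂ y = algebraMap F Ω y' := by
      change f₁ ((σ ^ r).symm y) = _
      have h1 : algebraMap k L ζ ^ r * (σ ^ r).symm y = y := by
        apply (σ ^ r).injective
        rw [map_mul, AlgEquiv.apply_symm_apply, map_pow, AlgEquiv.commutes,
          (comp_pow_act h r).2]
      have h2 := congrArg f₁ h1
      rw [map_mul, map_pow, AlgHom.commutes, ← hr] at h2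
      exact mul_left_cancel₀ (pow_ne_zero _ (hζ'.ne_zero hm.ne')) h2
    let ι : F →ₐ[k] Ω := IsScalarTower.toAlgHom k F Ω
    have hrange : ∀ z : L, f₂ z ∈ ι.range := by
      intro z
      have hz : z ∈ IntermediateField.adjoin k {x, y} := by
        rw [h.gen]
        exact IntermediateField.mem_top
      have hle : IntermediateField.adjoin k {x, y} ≤ (ι.fieldRange).comap f₂ := by
        rw [IntermediateField.adjoin_le_iff]
        rintro s (rfl | rfl)
        · exact ⟨x', hf₂x.symm⟩
        · exact ⟨y', hf₂y.symm⟩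
      exact hle hz
    let f : L →ₐ[k] F := ((AlgEquiv.ofInjective ι ι.injective).symm : ι.range →ₐ[k] F).comp
      (f₂.codRestrict ι.range hrange)
    have hf : ∀ z w, f₂ z = algebraMap F Ω w → f z = w := by
      intro z w hzw
      change (AlgEquiv.ofInjective ι ι.injective).symm ⟨f₂ z, hrange z⟩ = w
      rw [AlgEquiv.symm_apply_eq]
      apply Subtype.ext
      exact hzw
    have hfx := hf x x' hf₂x
    have hfy := hf y y' hf₂y
    have halg : Algebra.IsAlgebraic (IntermediateField.adjoin k {f x}) F := by
      rw [hfx]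
      exact comp_alg hx'
    refine ⟨comp_comap f halg, Or.inr ⟨f, fun _ => rfl⟩, fun u c => ⟨fun hc => ?_, fun hc => ?_⟩⟩
    · exact comp_comap_at f halg u (by rwa [hfx])
    · exact comp_comap_at f halg u (by rwa [hfy])

end Pool.Agent.ZCyc
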