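import Pool.Agent.ZCyc.Basic

/-!
# Superelliptic curves: definition

Coverings of the line with group of order `m`.
-/

namespace Pool.Agent.ZCyc

universe u

/-- `L` is the function field of the smooth projective model of the curve
`y ^ m = ∏ j, (x - e j) ^ a j` with distinct `e j` and exponents `a j` not divisible by `m`, and
`σ` is the automorphism `(x, y) ↦ (x, ζ y)`. -/
structure Cyclic {k : Type u} [Field k] (m : ℕ) (ζ : k) {J : Type} [Fintype J] (e : J → k)
    (a : J → ℕ) {L : Type u} [Field L] [Algebra k L] (σ : L ≃ₐ[k] L) (x y : L) : Prop where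
  transc : Transcendental k x
  gen : IntermediateField.adjoin k {x, y} = ⊤
  eqn : y ^ m = ∏ j, (x - algebraMap k L (e j)) ^ a j
  inj : Function.Injective e
  ndvd : ∀ j, ¬ m ∣ a j
  fix : σ x = x
  act : σ y = algebraMap k L ζ * y

end Pool.Agent.ZCyc
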