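import Mathlib

/-!
# Zero-cycles on products of smooth projective curves: definitions

Let `k` be an algebraically closed field of characteristic `0`. A smooth projective curve `C` over
`k` is given by its function field `L`, a field which is finitely generated and of transcendence
degree one over `k`. The (closed) points of `C` are the places of `L/k`, i.e. the valuation rings
`A` of `L` with `k ⊆ A ≠ L` (`Place`).

A morphism from a smooth projective curve `D` with function field `F` to a product of curves `C i`
with function fields `L i` is given by its components, each one of which is either constant or
dominant, i.e. given by an embedding of `L i` into `F` over `k` (`IsMorphism`).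

The Chow group of zero-cycles (with coefficients in a field `R` of characteristic zero) of the
product is the quotient of the space of zero-cycles by the subspace `ratEquiv` spanned by the
cycles `φ_* (π^* a - π^* b)`, where `π : D → ℙ¹` is a finite Galois covering of smooth projective
curves with group `G`, `a` and `b` are points of `ℙ¹` (`≠ ∞`), and `φ` is a morphism from `D` to
the product. If `v` is a point of `D` above `a`, then `π^* a = ∑ τ v`, the sum over all `τ` in `G`.
(Every function on a curve `D'`, i.e. every finite morphism `D' → ℙ¹`, is dominated by a Galois
covering, so that this is rational equivalence with coefficients in `R`.)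
-/

open scoped IntermediateField

namespace Pool.Agent.ZCyc

universe u w

/-- A place of the field `F` over `k`: a valuation ring of `F` which contains `k` and is not `F`.
If `F` is the function field of a smooth projective curve over the algebraically closed field `k`,
these are the points of the curve. -/
@[ext] structure Place (k F : Type*) [Field k] [Field F] [Algebra k F] where
  /-- the valuation ring -/
  ring : ValuationSubring F
  const_mem : ∀ c : k, algebraMap k F c ∈ ring
  ne_top : ring ≠ ⊤

variable {k : Type u} [Field k]

/-- The image of a point under an isomorphism of curves. -/
def Place.map {F F' : Type*} [Field F] [Algebra k F] [Field F'] [Algebra k F'] (v : Place k F)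
    (e : F ≃ₐ[k] F') : Place k F' where
  ring := v.ring.comap (e.symm : F' →+* F)
  const_mem := by
    intro c
    rw [ValuationSubring.mem_comap]
    have : (e.symm : F' →+* F) (algebraMap k F' c) = algebraMap k F c := e.symm.commutes c
    rw [this]
    exact v.const_mem c
  ne_top := by
    intro h
    apply v.ne_top
    ext x
    constructor
    · intro _
      exact ValuationSubring.mem_top x
    · intro _
      have h1 : e x ∈ v.ring.comap (e.symm : F' →+* F) := by
        rw [h]
        exact ValuationSubring.mem_top _
      rw [ValuationSubring.mem_comap] at h1
      simpa using h1

/-- The function `f` vanishes at the point `v`. -/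
def Place.Vanishes {F : Type*} [Field F] [Algebra k F] (v : Place k F) (f : F) : Prop :=
  f ∈ v.ring.nonunits

variable {ι : Type} {L : ι → Type u} [∀ i, Field (L i)] [∀ i, Algebra k (L i)]

/-- `φ` is a morphism from the curve with function field `F` to the product of the curves with
function fields `L i`: every component is constant or dominant. -/
def IsMorphism {F : Type u} [Field F] [Algebra k F] (φ : Place k F → ∀ i, Place k (L i)) : Prop :=
  ∀ i, (∃ p, ∀ v, φ v i = p) ∨ ∃ f : L i →ₐ[k] F, ∀ v, (φ v i).ring = v.ring.comap (f : L i →+* F)

variable (k L) in
/-- The zero-cycles (with coefficients in `R`) on the product of the curves with function fields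
`L i` which are rationally equivalent to zero: the span of the cycles
`φ_* (∑ τ, τ v) - φ_* (∑ τ, τ w)`, for all finite Galois coverings of the projective line, given by
extensions `F` of `k(X)`, all points `v` and `w` of `F` above points `a` and `b` of the line, and
all morphisms `φ` to the product; the sums are over all `τ` in the Galois group. -/
noncomputable def ratEquiv (R : Type w) [Field R] : Submodule R ((∀ i, Place k (L i)) →₀ R) :=
  Submodule.span R {z | ∃ (F : Type u) (_ : Field F) (_ : Algebra k F) (_ : Algebra (RatFunc k) F)
    (_ : IsScalarTower k (RatFunc k) F) (_ : FiniteDimensional (RatFunc k) F)
    (_ : IsGalois (RatFunc k) F) (φ : Place k F → ∀ i, Place k (L i)) (_ : IsMorphism φ)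
    (a b : k) (v w : Place k F)
    (_ : v.Vanishes (algebraMap (RatFunc k) F (RatFunc.X - RatFunc.C a)))
    (_ : w.Vanishes (algebraMap (RatFunc k) F (RatFunc.X - RatFunc.C b))),
    z = ∑ τ : F ≃ₐ[RatFunc k] F, (Finsupp.single (φ (v.map (τ.restrictScalars k))) 1 -
      Finsupp.single (φ (w.map (τ.restrictScalars k))) 1)}

end Pool.Agent.ZCyc
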