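import Pool.Agent.ZCyc.Main

/-!
# The isotypic part of the Chow group
-/

open Polynomial

namespace Pool.Agent.ZCyc

universe u w

section

variable {k : Type u} [Field k] {ι : Type} {L : ι → Type u} [∀ i, Field (L i)]
  [∀ i, Algebra k (L i)] {R : Type w} [Field R]

/-- Maps which preserve morphisms preserve rational equivalence. -/
theorem mapDomain_mem {g : (∀ i, Place k (L i)) → ∀ i, Place k (L i)}
    (hg : ∀ {F : Type u} [Field F] [Algebra k F] (φ : Place k F → ∀ i, Place k (L i)),
      IsMorphism φ → IsMorphism fun v => g (φ v)) {z : (∀ i, Place k (L i)) →₀ R}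
    (hz : z ∈ ratEquiv k L R) : z.mapDomain g ∈ ratEquiv k L R := by
  have h1 : ratEquiv k L R ≤ (ratEquiv k L R).comap (Finsupp.lmapDomain R R g) := by
    refine Submodule.span_le.2 ?_
    rintro _ ⟨F, _, _, _, _, _, _, φ, hφ, a, b, v, w, hv, hw, rfl⟩
    refine Submodule.subset_span ⟨F, _, _, _, ‹_›, ‹_›, ‹_›, fun v => g (φ v), hg φ hφ, a, b, v, w,
      hv, hw, ?_⟩
    rw [map_sum]
    refine Finset.sum_congr rfl fun τ _ => ?_
    rw [map_sub, Finsupp.lmapDomain_apply, Finsupp.lmapDomain_apply, Finsupp.mapDomain_single,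
      Finsupp.mapDomain_single]
  exact h1 hz

theorem isMorphism_map {L : Type u} [Field L] [Algebra k L] {n : ℕ} (τ : Fin n → Fin n)
    (s : Fin n → (L ≃ₐ[k] L)) {F : Type u} [Field F] [Algebra k F]
    (φ : Place k F → Fin n → Place k L) (hφ : IsMorphism φ) :
    IsMorphism fun v l => (φ v (τ l)).map (s l) := by
  intro l
  rcases hφ (τ l) with ⟨p, hp⟩ | ⟨f, hf⟩
  · left
    exact ⟨p.map (s l), fun v => congrArg (fun q : Place k L => q.map (s l)) (hp v)⟩
  · right
    refine ⟨f.comp ((s l).symm : L →ₐ[k] L), fun v => ?_⟩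
    ext z
    rw [Place.mem_map, hf, ValuationSubring.mem_comap, ValuationSubring.mem_comap]
    rfl

end

section

variable {k : Type u} [Field k] [IsAlgClosed k] [CharZero k] {R : Type w} [Field R] [CharZero R]
  {m : ℕ} {ζ : k} {ω : R} {J C' : Type} [Fintype J] [DecidableEq J] [Fintype C'] [DecidableEq C']
  {e : J → k} {a : J → ℕ} {L : Type u} [Field L] [Algebra k L] {σ : L ≃ₐ[k] L} {x y : L}

/-- The classes in the Chow group of zero-cycles of `C ^ n` which are symmetric and on which the
automorphism `σ` of each factor is multiplication by `ω` are zero. -/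
theorem Cyclic.isotypic (h : Cyclic m ζ e a σ x y) (hm : 1 < m) (hζ : IsPrimitiveRoot ζ m)
    (hω : IsPrimitiveRoot ω m) {b : J → C'} (hb : Function.Surjective b)
    (hsum : ∀ B, m ∣ ∑ j with b j = B, a j) {n : ℕ}
    (hn : Fintype.card J ≤ n + Fintype.card C') (z : (Fin n → Place k L) →₀ R)
    (hsym : ∀ τ : Equiv.Perm (Fin n),
      z.mapDomain (fun p l => p (τ l)) - z ∈ ratEquiv k (fun _ : Fin n => L) R)
    (hchi : ∀ l : Fin n, z.mapDomain (fun p => Function.update p l ((p l).map σ)) - ω • z ∈
      ratEquiv k (fun _ : Fin n => L) R) : z ∈ ratEquiv k (fun _ : Fin n => L) R := by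
  have hm0 : 0 < m := by omega
  have hσ : σ ^ m = 1 := h.pow_eq_one hζ.pow_eq_one
  set Q := ratEquiv k (fun _ : Fin n => L) R with hQ
  have hω0 : ω ≠ 0 := hω.ne_zero hm0.ne'
  -- the maps `(p l) ↦ (σ ^ i l (p l))`
  have hi : ∀ (s : Finset (Fin n)) (i : Fin n → ℕ), (∀ l ∉ s, i l = 0) →
      z.mapDomain (fun p l => (p l).map (σ ^ i l)) - ω ^ (∑ l, i l) • z ∈ Q := by
    intro s
    induction s using Finset.induction_on with
    | empty =>
      intro i hi
      have h1 : (fun (p : Fin n → Place k L) l => (p l).map (σ ^ i l)) = id := by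
        funext p l
        rw [hi l (Finset.notMem_empty l), pow_zero, Place.map_one]
        rfl
      rw [h1, Finsupp.mapDomain_id, Finset.sum_eq_zero fun l _ => hi l (Finset.notMem_empty l),
        pow_zero, one_smul, sub_self]
      exact Submodule.zero_mem _
    | insert l₀ s hl₀ ih =>
      intro i hi
      -- induction on `i l₀`
      have key : ∀ r : ℕ, z.mapDomain (fun p l => (p l).map (σ ^ (Function.update i l₀ r) l)) -
          ω ^ (∑ l, Function.update i l₀ r l) • z ∈ Q := by
        intro r
        induction r with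
        | zero =>
          apply ih
          intro l hl
          by_cases hll : l = l₀
          · rw [hll, Function.update_self]
          · rw [Function.update_of_ne hll]
            apply hi
            rw [Finset.mem_insert]
            push Not
            exact ⟨hll, hl⟩
        | succ r ihr =>
          have h2 := mapDomain_mem (g := fun p : Fin n → Place k L =>
            fun l => (p l).map (σ ^ (Function.update i l₀ r) l)) (fun φ hφ =>
              isMorphism_map id (fun l => σ ^ (Function.update i l₀ r) l) φ hφ) (hchi l₀)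
          have h3 : (Finsupp.mapDomain (fun (p : Fin n → Place k L) l =>
              (p l).map (σ ^ (Function.update i l₀ r) l))
              (z.mapDomain (fun p => Function.update p l₀ ((p l₀).map σ)) - ω • z)) =
              z.mapDomain (fun p l => (p l).map (σ ^ (Function.update i l₀ (r + 1)) l)) -
              ω • z.mapDomain (fun p l => (p l).map (σ ^ (Function.update i l₀ r) l)) := by
            rw [← Finsupp.lmapDomain_apply R R, map_sub, map_smul, Finsupp.lmapDomain_apply,
              Finsupp.lmapDomain_apply, ← Finsupp.mapDomain_comp]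
            congr 2
            funext p l
            simp only [Function.comp_apply]
            by_cases hll : l = l₀
            · rw [hll, Function.update_self, Function.update_self, Function.update_self,
                Place.map_map]
              congr 1
            · rw [Function.update_of_ne hll, Function.update_of_ne hll, Function.update_of_ne hll]
          rw [h3] at h2
          have h4 := Submodule.add_mem _ h2 (Submodule.smul_mem _ ω ihr)
          have h5 : ∑ l, Function.update i l₀ (r + 1) l = (∑ l, Function.update i l₀ r l) + 1 := by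
            rw [Finset.sum_update_of_mem (Finset.mem_univ _),
              Finset.sum_update_of_mem (Finset.mem_univ _)]
            ring
          rw [h5, pow_succ, mul_comm, mul_smul]
          rw [smul_sub] at h4
          convert h4 using 1
          abel
      have := key (i l₀)
      rwa [Function.update_eq_self] at this
  have hall : ∀ (τ : Equiv.Perm (Fin n)) (i : Fin n → ℕ),
      z.mapDomain (fun p l => (p (τ l)).map (σ ^ i l)) - ω ^ (∑ l, i l) • z ∈ Q := by
    intro τ i
    have h1 := mapDomain_mem (g := fun p : Fin n → Place k L => fun l => (p l).map (σ ^ i l))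
      (fun φ hφ => isMorphism_map id (fun l => σ ^ i l) φ hφ) (hsym τ)
    have h2 : Finsupp.mapDomain (fun (p : Fin n → Place k L) l => (p l).map (σ ^ i l))
        (z.mapDomain (fun p l => p (τ l)) - z) =
        z.mapDomain (fun p l => (p (τ l)).map (σ ^ i l)) -
          z.mapDomain (fun p l => (p l).map (σ ^ i l)) := by
      rw [← Finsupp.lmapDomain_apply R R, map_sub, Finsupp.lmapDomain_apply,
        Finsupp.lmapDomain_apply, ← Finsupp.mapDomain_comp]
      rfl
    rw [h2] at h1
    have h3 := Submodule.add_mem _ h1 (hi Finset.univ i fun l hl => absurd (Finset.mem_univ l) hl)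
    convert h3 using 1
    abel
  -- the operator maps everything to `Q`
  have hω' : IsPrimitiveRoot ω⁻¹ m := hω.inv
  have hop : op σ m ω⁻¹ n z ∈ Q := by
    have h1 : z = z.sum fun p c => c • Finsupp.single p 1 := by
      conv_lhs => rw [← Finsupp.sum_single z]
      refine Finsupp.sum_congr fun p _ => ?_
      rw [Finsupp.smul_single_one]
    rw [h1, map_finsuppSum]
    refine Submodule.sum_mem _ fun p _ => ?_
    simp only [map_smul]
    exact Submodule.smul_mem _ _ (h.main hm hζ hω' hb hsum hn p)
  have hop' : op σ m ω⁻¹ n z = ∑ τ : Equiv.Perm (Fin n), ∑ i : Fin n → Fin m,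
      (ω⁻¹) ^ (∑ l, (i l : ℕ)) • z.mapDomain (fun p l => (p (τ l)).map (σ ^ (i l : ℕ))) := by
    have h1 : op σ m ω⁻¹ n = ∑ τ : Equiv.Perm (Fin n), ∑ i : Fin n → Fin m,
        (ω⁻¹) ^ (∑ l, (i l : ℕ)) • Finsupp.lmapDomain R R
          (fun (p : Fin n → Place k L) l => (p (τ l)).map (σ ^ (i l : ℕ))) := by
      apply Finsupp.lhom_ext
      intro p c
      rw [op, Finsupp.linearCombination_single, LinearMap.sum_apply, Finset.smul_sum]
      refine Finset.sum_congr rfl fun τ _ => ?_
      rw [LinearMap.sum_apply, Finset.smul_sum]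
      refine Finset.sum_congr rfl fun i _ => ?_
      rw [LinearMap.smul_apply, Finsupp.lmapDomain_apply, Finsupp.mapDomain_single,
        Finsupp.smul_single, Finsupp.smul_single, smul_eq_mul, smul_eq_mul, mul_comm]
    rw [h1, LinearMap.sum_apply]
    refine Finset.sum_congr rfl fun τ _ => ?_
    rw [LinearMap.sum_apply]
    rfl
  have hdiff : op σ m ω⁻¹ n z - (Fintype.card (Equiv.Perm (Fin n)) * Fintype.card (Fin n → Fin m) :
      R) • z ∈ Q := by
    have h1 : (Fintype.card (Equiv.Perm (Fin n)) * Fintype.card (Fin n → Fin m) : R) • z =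
        ∑ τ : Equiv.Perm (Fin n), ∑ i : Fin n → Fin m, z := by
      rw [Finset.sum_const, Finset.sum_const, Finset.card_univ, Finset.card_univ, smul_smul,
        ← Nat.cast_mul, Nat.cast_smul_eq_nsmul]
    rw [hop', h1, ← Finset.sum_sub_distrib]
    refine Submodule.sum_mem _ fun τ _ => ?_
    rw [← Finset.sum_sub_distrib]
    refine Submodule.sum_mem _ fun i _ => ?_
    have h2 := Submodule.smul_mem _ ((ω⁻¹) ^ (∑ l, (i l : ℕ))) (hall τ fun l => (i l : ℕ))
    rwa [smul_sub, smul_smul, inv_pow, inv_mul_cancel₀ (pow_ne_zero _ hω0), one_smul,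
      ← inv_pow] at h2
  have hcard : (Fintype.card (Equiv.Perm (Fin n)) * Fintype.card (Fin n → Fin m) : R) ≠ 0 := by
    have : NeZero m := ⟨hm0.ne'⟩
    refine mul_ne_zero (Nat.cast_ne_zero.2 Fintype.card_ne_zero)
      (Nat.cast_ne_zero.2 Fintype.card_ne_zero)
  have h1 := Submodule.sub_mem _ hop hdiff
  rw [sub_sub_cancel] at h1
  have h2 := Submodule.smul_mem _
    (Fintype.card (Equiv.Perm (Fin n)) * Fintype.card (Fin n → Fin m) : R)⁻¹ h1
  rwa [smul_smul, inv_mul_cancel₀ hcard, one_smul] at h2

end

end Pool.Agent.ZCyc
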