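import Pool.Agent.ZCyc.Basic

/-!
# The operator projecting to the symmetric power of an isotypical part
-/

namespace Pool.Agent.ZCyc

universe u w

section P9

variable {k : Type u} [Field k] {L : Type u} [Field L] [Algebra k L] {R : Type w} [Field R]

/-- the operator -/
noncomputable def op (σ : L ≃ₐ[k] L) (m : ℕ) (ω : R) (n : ℕ) :
    ((Fin n → Place k L) →₀ R) →ₗ[R] ((Fin n → Place k L) →₀ R) :=
  Finsupp.linearCombination R fun p => ∑ τ : Equiv.Perm (Fin n), ∑ i : Fin n → Fin m,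
    Finsupp.single (fun l => (p (τ l)).map (σ ^ (i l : ℕ))) (ω ^ ∑ l, (i l : ℕ))

private noncomputable def inner (σ : L ≃ₐ[k] L) (m : ℕ) (ω : R) {n : ℕ}
    (p : Fin n → Place k L) : (Fin n → Place k L) →₀ R :=
  ∑ i : Fin n → Fin m,
    Finsupp.single (fun l => (p l).map (σ ^ (i l : ℕ))) (ω ^ ∑ l, (i l : ℕ))

private theorem op_single (σ : L ≃ₐ[k] L) (m : ℕ) (ω : R) {n : ℕ} (p : Fin n → Place k L) :
    op σ m ω n (Finsupp.single p 1) =
      ∑ τ : Equiv.Perm (Fin n), inner σ m ω (fun l => p (τ l)) := by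
  rw [op, Finsupp.linearCombination_single, one_smul]
  rfl

private theorem map_pow_pow (σ : L ≃ₐ[k] L) (p : Place k L) (a b : ℕ) :
    (p.map (σ ^ a)).map (σ ^ b) = p.map (σ ^ (b + a)) := by
  rw [Place.map_map, pow_add]
  rfl

private theorem inner_shift {σ : L ≃ₐ[k] L} {m : ℕ} (hm : 0 < m) (hσ : σ ^ m = 1) {ω : R}
    (hω : ω ^ m = 1) {n : ℕ} (p : Fin n → Place k L) (r : Fin n → ℕ) :
    ω ^ (∑ l, r l) • inner σ m ω (fun l => (p l).map (σ ^ r l)) = inner σ m ω p := by
  have : NeZero m := ⟨hm.ne'⟩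
  rw [inner, inner, Finset.smul_sum]
  refine Fintype.sum_equiv (Equiv.addRight fun l => Fin.ofNat m (r l)) _ _ fun i => ?_
  have hval : ∀ l, ((i + fun l => Fin.ofNat m (r l)) l : ℕ) = ((i l : ℕ) + r l) % m := by
    intro l
    rw [Pi.add_apply, Fin.val_add, Fin.val_ofNat, Nat.add_mod_mod]
  rw [Finsupp.smul_single, smul_eq_mul, Equiv.coe_addRight]
  congr 1
  · funext l
    rw [map_pow_pow, hval, ← pow_eq_pow_mod _ hσ]
  · rw [← pow_add, ← Finset.sum_add_distrib, ← Finset.prod_pow_eq_pow_sum,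
      ← Finset.prod_pow_eq_pow_sum]
    refine Finset.prod_congr rfl fun l _ => ?_
    rw [hval, ← pow_eq_pow_mod _ hω, add_comm]

theorem op_mem (σ : L ≃ₐ[k] L) (m : ℕ) (ω : R) (n : ℕ) {z : (Fin n → Place k L) →₀ R}
    (hz : z ∈ ratEquiv k (fun _ : Fin n => L) R) :
    op σ m ω n z ∈ ratEquiv k (fun _ : Fin n => L) R := by
  induction hz using Submodule.span_induction with
  | mem z hz =>
    obtain ⟨F, _, _, _, _, _, _, φ, hφ, a, b, v, w, hv, hw, rfl⟩ := hz
    have e : op σ m ω n (∑ τ : F ≃ₐ[RatFunc k] F,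
        (Finsupp.single (φ (v.map (τ.restrictScalars k))) 1 -
          Finsupp.single (φ (w.map (τ.restrictScalars k))) 1)) =
        ∑ τ : Equiv.Perm (Fin n), ∑ i : Fin n → Fin m, (ω ^ ∑ l, (i l : ℕ)) •
          ∑ g : F ≃ₐ[RatFunc k] F,
            (Finsupp.single (fun l => (φ (v.map (g.restrictScalars k)) (τ l)).map
              (σ ^ (i l : ℕ))) 1 -
            Finsupp.single (fun l => (φ (w.map (g.restrictScalars k)) (τ l)).map
              (σ ^ (i l : ℕ))) (1 : R)) := by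
      rw [map_sum]
      simp only [map_sub, op_single, inner, Finset.smul_sum, smul_sub, Finsupp.smul_single,
        smul_eq_mul, mul_one]
      rw [Finset.sum_congr rfl fun g _ => (Finset.sum_sub_distrib _ _).symm]
      rw [Finset.sum_comm]
      refine Finset.sum_congr rfl fun τ _ => ?_
      rw [Finset.sum_congr rfl fun g _ => (Finset.sum_sub_distrib _ _).symm]
      rw [Finset.sum_comm]
    rw [e]
    refine Submodule.sum_mem _ fun τ _ => Submodule.sum_mem _ fun i _ =>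
      Submodule.smul_mem _ _ (Submodule.subset_span ?_)
    refine ⟨F, inferInstance, inferInstance, inferInstance, inferInstance, inferInstance,
      inferInstance, fun v l => (φ v (τ l)).map (σ ^ (i l : ℕ)), ?_, a, b, v, w, hv, hw, rfl⟩
    intro l
    rcases hφ (τ l) with ⟨p, hp⟩ | ⟨f, hf⟩
    · exact Or.inl ⟨p.map (σ ^ (i l : ℕ)), fun v =>
        congrArg (fun q : Place k L => q.map (σ ^ (i l : ℕ))) (hp v)⟩
    · refine Or.inr ⟨f.comp ((σ ^ (i l : ℕ)).symm : L →ₐ[k] L), fun v => ?_⟩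
      ext x
      rw [Place.mem_map, hf, ValuationSubring.mem_comap, ValuationSubring.mem_comap]
      rfl
  | zero =>
    rw [map_zero]
    exact Submodule.zero_mem _
  | add a b _ _ ha hb =>
    rw [map_add]
    exact Submodule.add_mem _ ha hb
  | smul c a _ ha =>
    rw [map_smul]
    exact Submodule.smul_mem _ _ ha

theorem op_special {σ : L ≃ₐ[k] L} {m : ℕ} (hm : 0 < m) (hσ : σ ^ m = 1) {ω : R}
    (hω : IsPrimitiveRoot ω m) {n : ℕ} {p : Fin n → Place k L} {l : Fin n} {d : ℕ} (hd : 0 < d)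
    (hdm : d < m) (h : (p l).map (σ ^ d) = p l) : op σ m ω n (Finsupp.single p 1) = 0 := by
  rw [op_single]
  refine Finset.sum_eq_zero fun τ _ => ?_
  have h1 := inner_shift hm hσ hω.pow_eq_one (fun l => p (τ l)) (Pi.single (τ.symm l) d)
  have h2 : (fun l' => (p (τ l')).map (σ ^ (Pi.single (τ.symm l) d : Fin n → ℕ) l')) =
      fun l' => p (τ l') := by
    funext l'
    by_cases hl : l' = τ.symm l
    · subst hl
      rw [Pi.single_eq_same, Equiv.apply_symm_apply, h]
    · rw [Pi.single_eq_of_ne hl, pow_zero, Place.map_one]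
  rw [h2, Finset.sum_pi_single' (τ.symm l) d] at h1
  simp only [Finset.mem_univ, if_true] at h1
  have h3 : (ω ^ d - 1) • inner σ m ω (fun l => p (τ l)) = 0 := by
    rw [sub_smul, h1, one_smul, sub_self]
  rcases smul_eq_zero.1 h3 with h4 | h4
  · exact absurd (sub_eq_zero.1 h4) (hω.pow_ne_one_of_pos_of_lt hd.ne' hdm)
  · exact h4

theorem op_perm {σ : L ≃ₐ[k] L} {m : ℕ} (hm : 0 < m) (hσ : σ ^ m = 1) {ω : R}
    (hω : ω ^ m = 1) {n : ℕ} (p : Fin n → Place k L) (ρ : Equiv.Perm (Fin n)) (r : Fin n → ℕ) :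
    ω ^ (∑ l, r l) • op σ m ω n (Finsupp.single (fun l => (p (ρ l)).map (σ ^ r l)) 1) =
      op σ m ω n (Finsupp.single p 1) := by
  rw [op_single, op_single, Finset.smul_sum]
  refine Fintype.sum_equiv (Equiv.mulLeft ρ) _ _ fun τ => ?_
  rw [← Equiv.sum_comp τ r]
  exact inner_shift hm hσ hω (fun l => p (ρ (τ l))) (fun l => r (τ l))

end P9

end Pool.Agent.ZCyc
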