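import Pool.Agent.ZCyc.Basic

/-!
# Places are determined by the values of generators at smooth points
-/

namespace Pool.Agent.ZCyc

section Krull

variable {B : Type*} [CommRing B] (𝔭 : Ideal B) [𝔭.IsPrime]

/-- the ideal of all `r` which are locally multiples of `u` -/
def locIdeal (u : B) : Ideal B where
  carrier := {r | ∃ g ∉ 𝔭, ∃ c, r * g = u * c}
  add_mem' := by
    rintro a b ⟨g, hg, c, hc⟩ ⟨g', hg', c', hc'⟩
    refine ⟨g * g', fun h => ?_, c * g' + c' * g, ?_⟩
    · rcases Ideal.IsPrime.mem_or_mem ‹_› h with h | h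
      · exact hg h
      · exact hg' h
    · linear_combination g' * hc + g * hc'
  zero_mem' := ⟨1, fun h => Ideal.IsPrime.ne_top ‹_› ((Ideal.eq_top_iff_one _).2 h), 0, by ring⟩
  smul_mem' := by
    rintro a b ⟨g, hg, c, hc⟩
    refine ⟨g, hg, a * c, ?_⟩
    rw [smul_eq_mul]
    linear_combination a * hc

lemma exists_pow [IsDomain B] [IsNoetherianRing B] {π : B} (hπ : π ∈ 𝔭) (hπ0 : π ≠ 0)
    (h : ∀ s ∈ 𝔭, ∃ g ∉ 𝔭, ∃ h, s * g = π * h) {u : B} (hu : u ≠ 0) :
    ∃ (i : ℕ) (g g' : B), g ∉ 𝔭 ∧ g' ∉ 𝔭 ∧ u * g = π ^ i * g' := by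
  have key : ∀ I : Ideal B, ∀ u : B, u ≠ 0 → locIdeal 𝔭 u = I →
      ∃ (i : ℕ) (g g' : B), g ∉ 𝔭 ∧ g' ∉ 𝔭 ∧ u * g = π ^ i * g' := by
    intro I
    induction I using WellFoundedGT.induction with
    | ind I ih =>
      intro u hu hI
      have h1 : (1 : B) ∉ 𝔭 := fun h => Ideal.IsPrime.ne_top ‹_› ((Ideal.eq_top_iff_one _).2 h)
      by_cases hup : u ∈ 𝔭
      · obtain ⟨g, hg, c, hc⟩ := h u hup
        have hg0 : g ≠ 0 := fun h => hg (h ▸ 𝔭.zero_mem)
        have hc0 : c ≠ 0 := by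
          rintro rfl
          rw [mul_zero] at hc
          exact mul_ne_zero hu hg0 hc
        have hlt : I < locIdeal 𝔭 c := by
          rw [← hI]
          refine lt_of_le_of_ne ?_ ?_
          · rintro r ⟨g1, hg1, c1, hc1⟩
            refine ⟨g1 * g, fun h => ?_, π * c1, ?_⟩
            · rcases Ideal.IsPrime.mem_or_mem ‹_› h with h | h
              · exact hg1 h
              · exact hg h
            · linear_combination g * hc1 + c1 * hc
          · intro heq
            have hcm : c ∈ locIdeal 𝔭 u := by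
              rw [heq]
              exact ⟨1, h1, 1, by ring⟩
            obtain ⟨g2, hg2, c2, hc2⟩ := hcm
            have h3 : u * (g * g2) = u * (π * c2) := by
              linear_combination g2 * hc + π * hc2
            have h4 := mul_left_cancel₀ hu h3
            have h5 : g * g2 ∈ 𝔭 := by
              rw [h4]
              exact Ideal.mul_mem_right _ _ hπ
            rcases Ideal.IsPrime.mem_or_mem ‹_› h5 with h | h
            · exact hg h
            · exact hg2 h
        obtain ⟨i, g3, g4, hg3, hg4, h5⟩ := ih _ hlt c hc0 rfl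
        refine ⟨i + 1, g * g3, g4, fun h => ?_, hg4, ?_⟩
        · rcases Ideal.IsPrime.mem_or_mem ‹_› h with h | h
          · exact hg h
          · exact hg3 h
        · linear_combination g3 * hc + π * h5
      · exact ⟨0, 1, u, h1, hup, by ring⟩
  exact key _ u hu rfl

end Krull

variable {k : Type*} [Field k] {F : Type*} [Field F] [Algebra k F]

namespace Place

lemma adjoin_at {P Q : Place k F} {S : Set F} {c : F → k} (hP : ∀ s ∈ S, P.At s (c s))
    (hQ : ∀ s ∈ S, Q.At s (c s)) {z : F} (hz : z ∈ Algebra.adjoin k S) :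
    ∃ d, P.At z d ∧ Q.At z d := by
  induction hz using Algebra.adjoin_induction with
  | mem s hs => exact ⟨c s, hP s hs, hQ s hs⟩
  | algebraMap r => exact ⟨r, at_const r, at_const r⟩
  | add x y _ _ hx hy =>
    obtain ⟨d, h1, h2⟩ := hx
    obtain ⟨d', h3, h4⟩ := hy
    exact ⟨d + d', h1.add h3, h2.add h4⟩
  | mul x y _ _ hx hy =>
    obtain ⟨d, h1, h2⟩ := hx
    obtain ⟨d', h3, h4⟩ := hy
    exact ⟨d * d', h1.mul h3, h2.mul h4⟩

lemma not_vanishes_mul {P : Place k F} {a b : F} (ha : ¬ P.Vanishes a) (hb : ¬ P.Vanishes b) :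
    ¬ P.Vanishes (a * b) := by
  rw [vanishes_iff, not_lt] at *
  rw [_root_.map_mul]
  exact one_le_mul ha hb

lemma valuation_eq_one {P : Place k F} {a : F} (h : a ∈ P.ring) (h' : ¬ P.Vanishes a) :
    P.ring.valuation a = 1 := by
  rw [vanishes_iff, not_lt] at h'
  exact le_antisymm ((P.ring.valuation_le_one_iff a).2 h) h'

theorem eq_of_uniformizer {P Q : Place k F} {S : Finset F}
    (hgen : IntermediateField.adjoin k (S : Set F) = ⊤) (c : F → k)
    (hP : ∀ s ∈ S, P.At s (c s)) (hQ : ∀ s ∈ S, Q.At s (c s)) {π : F}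
    (hπ : π ∈ Algebra.adjoin k (S : Set F)) (hπP : P.Vanishes π)
    (h : ∀ s ∈ S, ∃ g ∈ Algebra.adjoin k (S : Set F), ∃ h ∈ Algebra.adjoin k (S : Set F),
      ¬ P.Vanishes g ∧ (s - algebraMap k F (c s)) * g = π * h) : P = Q := by
  classical
  set B := Algebra.adjoin k (S : Set F) with hB
  have hval : ∀ z ∈ B, ∃ d, P.At z d ∧ Q.At z d := fun z hz => adjoin_at hP hQ hz
  have hBP : ∀ z ∈ B, z ∈ P.ring := fun z hz => by
    obtain ⟨d, h1, _⟩ := hval z hz
    exact h1.mem
  have hBQ : ∀ z ∈ B, z ∈ Q.ring := fun z hz => by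
    obtain ⟨d, _, h1⟩ := hval z hz
    exact h1.mem
  have hvan : ∀ z ∈ B, (P.Vanishes z ↔ Q.Vanishes z) := by
    intro z hz
    obtain ⟨d, h1, h2⟩ := hval z hz
    constructor
    · intro h3
      have : d = 0 := h1.unique (at_zero_iff.2 h3)
      rw [this] at h2
      exact at_zero_iff.1 h2
    · intro h3
      have : d = 0 := h2.unique (at_zero_iff.2 h3)
      rw [this] at h1
      exact at_zero_iff.1 h1
  have hfrac : ∀ z : F, ∃ u ∈ B, ∃ w ∈ B, z = u / w := by
    intro z
    have : z ∈ IntermediateField.adjoin k (S : Set F) := by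
      rw [hgen]
      exact IntermediateField.mem_top
    exact (IntermediateField.mem_adjoin_iff_div).1 this
  have hπ0 : π ≠ 0 := by
    rintro rfl
    apply P.ne_top
    have h1 : ∀ s ∈ S, s = algebraMap k F (c s) := by
      intro s hs
      obtain ⟨g, _, h', _, hg, he⟩ := h s hs
      rw [zero_mul] at he
      rcases mul_eq_zero.1 he with h2 | h2
      · exact sub_eq_zero.1 h2
      · exfalso
        apply hg
        rw [h2]
        exact P.vanishes_zero
    have h2 : ∀ z ∈ B, ∃ d, z = algebraMap k F d := by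
      intro z hz
      induction hz using Algebra.adjoin_induction with
      | mem s hs => exact ⟨c s, h1 s hs⟩
      | algebraMap r => exact ⟨r, rfl⟩
      | add x y _ _ hx hy =>
        obtain ⟨d, h1⟩ := hx
        obtain ⟨d', h3⟩ := hy
        exact ⟨d + d', by rw [h1, h3, map_add]⟩
      | mul x y _ _ hx hy =>
        obtain ⟨d, h1⟩ := hx
        obtain ⟨d', h3⟩ := hy
        exact ⟨d * d', by rw [h1, h3, _root_.map_mul]⟩
    ext z
    refine ⟨fun _ => ValuationSubring.mem_top z, fun _ => ?_⟩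
    obtain ⟨u, hu, w, hw, rfl⟩ := hfrac z
    obtain ⟨d, rfl⟩ := h2 u hu
    obtain ⟨d', rfl⟩ := h2 w hw
    rw [← map_div₀]
    exact P.const_mem _
  -- the prime ideal
  let 𝔭 : Ideal B :=
    { carrier := {z | P.Vanishes (z : F)}
      add_mem' := fun {a b} ha hb => Vanishes.add P ha hb
      zero_mem' := P.vanishes_zero
      smul_mem' := fun a b hb => Vanishes.mul' P hb (hBP a a.2) }
  have h𝔭 : ∀ z : B, z ∈ 𝔭 ↔ P.Vanishes (z : F) := fun z => Iff.rfl
  haveI : 𝔭.IsPrime := by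
    refine Ideal.isPrime_iff.2 ⟨?_, ?_⟩
    · intro htop
      have : (1 : B) ∈ 𝔭 := by
        rw [htop]
        exact Submodule.mem_top
      rw [h𝔭] at this
      have h1 : P.Vanishes (algebraMap k F 1) := by simpa using this
      exact P.const_unit one_ne_zero h1
    · intro x y hxy
      by_contra hcon
      push Not at hcon
      exact not_vanishes_mul hcon.1 hcon.2 hxy
  haveI : IsNoetherianRing B := by
    have : Algebra.FiniteType k B := (Subalgebra.fg_iff_finiteType _).1 ⟨S, rfl⟩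
    exact Algebra.FiniteType.isNoetherianRing k B
  have hloc : ∀ z : B, ∃ d, P.At (z : F) d ∧ ∃ g ∉ 𝔭, ∃ h' : B,
      (z - algebraMap k B d) * g = ⟨π, hπ⟩ * h' := by
    rintro ⟨z, hz⟩
    induction hz using Algebra.adjoin_induction with
    | mem s hs =>
      obtain ⟨g, hg, h', hh', hgv, he⟩ := h s hs
      refine ⟨c s, hP s hs, ⟨g, hg⟩, hgv, ⟨h', hh'⟩, ?_⟩
      ext
      exact he
    | algebraMap r =>
      refine ⟨r, at_const r, 1, ?_, 0, ?_⟩
      · exact fun h => Ideal.IsPrime.ne_top ‹_› ((Ideal.eq_top_iff_one _).2 h)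
      · ext
        simp
    | add x y hx' hy' hx hy =>
      obtain ⟨d, h1, g, hg, a, ha⟩ := hx
      obtain ⟨d', h3, g', hg', a', ha'⟩ := hy
      refine ⟨d + d', h1.add h3, g * g', ?_, a * g' + a' * g, ?_⟩
      · exact not_vanishes_mul hg hg'
      · ext
        have e1 := congrArg Subtype.val ha
        have e2 := congrArg Subtype.val ha'
        simp only [MulMemClass.coe_mul, AddSubgroupClass.coe_sub, SubalgebraClass.coe_algebraMap,
          AddMemClass.coe_add, map_add] at e1 e2 ⊢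
        linear_combination (g' : F) * e1 + (g : F) * e2
    | mul x y hx' hy' hx hy =>
      obtain ⟨d, h1, g, hg, a, ha⟩ := hx
      obtain ⟨d', h3, g', hg', a', ha'⟩ := hy
      refine ⟨d * d', h1.mul h3, g * g', ?_, a * ⟨y, hy'⟩ * g' + algebraMap k B d * a' * g, ?_⟩
      · exact not_vanishes_mul hg hg'
      · ext
        have e1 := congrArg Subtype.val ha
        have e2 := congrArg Subtype.val ha'
        simp only [MulMemClass.coe_mul, AddSubgroupClass.coe_sub, SubalgebraClass.coe_algebraMap,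
          AddMemClass.coe_add, _root_.map_mul] at e1 e2 ⊢
        linear_combination (y * (g' : F)) * e1 + (algebraMap k F d * (g : F)) * e2
  have hloc' : ∀ s ∈ 𝔭, ∃ g ∉ 𝔭, ∃ h', s * g = ⟨π, hπ⟩ * h' := by
    intro s hs
    obtain ⟨d, h1, g, hg, h', he⟩ := hloc s
    have : d = 0 := h1.unique (at_zero_iff.2 hs)
    subst this
    rw [map_zero, sub_zero] at he
    exact ⟨g, hg, h', he⟩
  have hπB : (⟨π, hπ⟩ : B) ≠ 0 := fun h0 => hπ0 (congrArg Subtype.val h0)
  have hπQ : Q.Vanishes π := (hvan π hπ).1 hπP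
  have hmem : ∀ (A : Place k F), A.Vanishes π → (∀ z ∈ B, z ∈ A.ring) →
      (∀ z ∈ B, ¬ P.Vanishes z → ¬ A.Vanishes z) → ∀ (u w g1 g1' g2 g2' : B) (i j : ℕ),
      g1 ∉ 𝔭 → g1' ∉ 𝔭 → g2 ∉ 𝔭 → g2' ∉ 𝔭 → u * g1 = (⟨π, hπ⟩ : B) ^ i * g1' →
      w * g2 = (⟨π, hπ⟩ : B) ^ j * g2' → ((u : F) / w ∈ A.ring ↔ j ≤ i) := by
    intro A hA hAB hAu u w g1 g1' g2 g2' i j h1 h1' h2 h2' e1 e2
    have hone : ∀ z : B, z ∉ 𝔭 → A.ring.valuation (z : F) = 1 := fun z hz =>
      valuation_eq_one (hAB z z.2) (hAu z z.2 hz)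
    have e1' := congrArg (fun z : B => A.ring.valuation (z : F)) e1
    have e2' := congrArg (fun z : B => A.ring.valuation (z : F)) e2
    simp only [MulMemClass.coe_mul, SubmonoidClass.coe_pow, _root_.map_mul, map_pow,
      hone g1 h1, hone g1' h1', hone g2 h2, hone g2' h2', mul_one] at e1' e2'
    have hpos : 0 < A.ring.valuation π := (Valuation.pos_iff _).2 hπ0
    have hlt : A.ring.valuation π < 1 := (A.vanishes_iff π).1 hA
    rw [← ValuationSubring.valuation_le_one_iff, map_div₀, e1', e2',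
      div_le_one₀ (pow_pos hpos j)]
    constructor
    · intro hle
      by_contra hcon
      exact absurd hle (not_le.2 (pow_lt_pow_right_of_lt_one₀ hpos hlt (not_le.1 hcon)))
    · intro hle
      exact pow_le_pow_right_of_le_one' hlt.le hle
  apply Place.ext
  ext z
  obtain ⟨u, hu, w, hw, rfl⟩ := hfrac z
  by_cases hu0 : u = 0
  · subst hu0
    simp
  by_cases hw0 : w = 0
  · subst hw0
    simp
  obtain ⟨i, g1, g1', h1, h1', e1⟩ := exists_pow 𝔭 (π := ⟨π, hπ⟩) hπP hπB hloc'
    (u := ⟨u, hu⟩) (fun h0 => hu0 (congrArg Subtype.val h0))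
  obtain ⟨j, g2, g2', h2, h2', e2⟩ := exists_pow 𝔭 (π := ⟨π, hπ⟩) hπP hπB hloc'
    (u := ⟨w, hw⟩) (fun h0 => hw0 (congrArg Subtype.val h0))
  rw [hmem P hπP hBP (fun z _ h => h) ⟨u, hu⟩ ⟨w, hw⟩ g1 g1' g2 g2' i j h1 h1' h2 h2' e1 e2,
    hmem Q hπQ hBQ (fun z hz h h' => h ((hvan z hz).2 h')) ⟨u, hu⟩ ⟨w, hw⟩ g1 g1' g2 g2' i j
      h1 h1' h2 h2' e1 e2]

end Place

end Pool.Agent.ZCyc
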