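import Pool.Agent.ZCyc.P1
import Pool.Agent.ZCyc.P2
import Pool.Agent.ZCyc.Places
import Pool.Agent.ZCyc.Pencil
import Pool.Agent.ZCyc.Base
import Pool.Agent.ZCyc.Cover
import Pool.Agent.ZCyc.Comp
import Pool.Agent.ZCyc.Op
import Pool.Agent.ZCyc.Change
import Pool.Agent.ZCyc.Perm

/-!
# The main theorem

`C` is a cyclic covering of the line, `P` a point of `C ^ n`. The divisor `x(P 0) + ... + x(P (n-1))`
is moved in a pencil which meets the branch divisors of one block at the same parameter.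
-/

open Polynomial

namespace Pool.Agent.ZCyc

universe u w

section Core

variable {k : Type u} [Field k] {m : ℕ} {ζ : k} {J : Type} [Fintype J] {e : J → k} {a : J → ℕ}
  {L : Type u} [Field L] [Algebra k L] {σ : L ≃ₐ[k] L} {x y : L}

lemma Cyclic.val (h : Cyclic m ζ e a σ x y) {P : Place k L} {α : k} (hx : P.At x α) :
    P.At (y ^ m) (∏ j, (α - e j) ^ a j) := by
  rw [h.eqn]
  exact Place.At.prod fun j _ => (hx.sub (Place.at_const (e j))).pow _

lemma Cyclic.pow_act (h : Cyclic m ζ e a σ x y) (r : ℕ) :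
    (σ ^ r) x = x ∧ (σ ^ r) y = algebraMap k L ζ ^ r * y := by
  induction r with
  | zero => simp
  | succ r ih =>
    rw [pow_succ, AlgEquiv.mul_apply, AlgEquiv.mul_apply, h.fix, h.act, map_mul, ih.1, ih.2,
      AlgEquiv.commutes]
    exact ⟨rfl, by ring⟩

lemma Cyclic.ext_hom (h : Cyclic m ζ e a σ x y) {K : Type*} [Field K] [Algebra k K]
    {f g : L →ₐ[k] K} (hx : f x = g x) (hy : f y = g y) : f = g := by
  ext z
  have hz : z ∈ IntermediateField.adjoin k {x, y} := by
    rw [h.gen]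
    exact IntermediateField.mem_top
  induction hz using IntermediateField.adjoin_induction with
  | mem s hs =>
    rcases hs with rfl | rfl
    · exact hx
    · exact hy
  | algebraMap c => rw [AlgHom.commutes, AlgHom.commutes]
  | add a b _ _ ha hb => rw [map_add, map_add, ha, hb]
  | inv a _ ha => rw [map_inv₀, map_inv₀, ha]
  | mul a b _ _ ha hb => rw [map_mul, map_mul, ha, hb]

lemma Cyclic.pow_eq_one (h : Cyclic m ζ e a σ x y) (hζ : ζ ^ m = 1) : σ ^ m = 1 := by
  have h1 : ((σ ^ m : L ≃ₐ[k] L) : L →ₐ[k] L) = AlgHom.id k L := by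
    apply h.ext_hom
    · exact (h.pow_act m).1
    · change (σ ^ m) y = y
      rw [(h.pow_act m).2, ← map_pow, hζ, map_one, one_mul]
  ext z
  exact congrArg (fun f : L →ₐ[k] L => f z) h1

lemma Cyclic.symm_act (h : Cyclic m ζ e a σ x y) (r : ℕ) :
    (σ ^ r).symm x = x ∧ algebraMap k L ζ ^ r * (σ ^ r).symm y = y := by
  constructor
  · rw [AlgEquiv.symm_apply_eq, (h.pow_act r).1]
  · have h1 : (σ ^ r) ((σ ^ r).symm y) = y := AlgEquiv.apply_symm_apply _ _
    have h2 : (σ ^ r).symm ((σ ^ r) y) = y := AlgEquiv.symm_apply_apply _ _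
    rw [(h.pow_act r).2, map_mul, map_pow, AlgEquiv.commutes] at h2
    exact h2

lemma Cyclic.nonempty (h : Cyclic m ζ e a σ x y) (hζ : IsPrimitiveRoot ζ m) (hm : 1 < m) :
    Nonempty J := by
  by_contra hJ
  rw [not_nonempty_iff] at hJ
  have h1 : y ^ m = 1 := by
    rw [h.eqn, Finset.univ_eq_empty, Finset.prod_empty]
  have : NeZero m := ⟨by omega⟩
  have hζ' : IsPrimitiveRoot (algebraMap k L ζ) m :=
    hζ.map_of_injective (algebraMap k L).injective
  obtain ⟨i, _, hi⟩ := hζ'.eq_pow_of_pow_eq_one h1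
  have h2 := h.act
  rw [← hi, map_pow, AlgEquiv.commutes] at h2
  have h3 : (algebraMap k L ζ) ^ i ≠ 0 := pow_ne_zero _ (hζ'.ne_zero (by omega))
  have h4 : algebraMap k L ζ = 1 := by
    have h5 : (1 : L) * algebraMap k L ζ ^ i = algebraMap k L ζ * algebraMap k L ζ ^ i := by
      rw [one_mul]
      exact h2
    exact (mul_right_cancel₀ h3 h5).symm
  rw [h4] at hζ'
  have h5 := hζ'.eq_orderOf
  rw [orderOf_one] at h5
  omega

end Core

section Main

variable {k : Type u} [Field k] [IsAlgClosed k] [CharZero k] {R : Type w} [Field R] [CharZero R]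
  {m : ℕ} {ζ : k} {ω : R} {J C' : Type} [Fintype J] [DecidableEq J] [Fintype C'] [DecidableEq C']
  {e : J → k} {a : J → ℕ} {L : Type u} [Field L] [Algebra k L] {σ : L ≃ₐ[k] L} {x y : L}

/-- the case of points with `x` regular and not a branch point -/
theorem Cyclic.general (h : Cyclic m ζ e a σ x y) (hm : 1 < m) (hζ : IsPrimitiveRoot ζ m)
    (hω : IsPrimitiveRoot ω m) {b : J → C'} (hb : Function.Surjective b)
    (hsum : ∀ B, m ∣ ∑ j with b j = B, a j) {n : ℕ}
    (hn : Fintype.card J ≤ n + Fintype.card C') (P : Fin n → Place k L) {α : Fin n → k}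
    (hα : ∀ l, (P l).At x (α l)) (hαe : ∀ l j, α l ≠ e j) :
    op σ m ω n (Finsupp.single P 1) ∈ ratEquiv k (fun _ : Fin n => L) R := by
  have hm0 : 0 < m := by omega
  have : NeZero m := ⟨hm0.ne'⟩
  have hσ : σ ^ m = 1 := h.pow_eq_one hζ.pow_eq_one
  have : Infinite k := IsAlgClosed.instInfinite
  -- values of `y`
  have hβ : ∀ l, ∃ β : k, (P l).At y β ∧ β ^ m = ∏ j, (α l - e j) ^ a j := by
    intro l
    obtain ⟨β, hβ⟩ := IsAlgClosed.exists_pow_nat_eq (∏ j, (α l - e j) ^ a j) hm0
    have h1 := h.val (hα l)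
    rw [← hβ] at h1
    obtain ⟨i, _, hi⟩ := Place.exists_root_at hζ hm0 h1
    exact ⟨_, hi, by rw [mul_pow, ← pow_mul, mul_comm i, pow_mul, hζ.pow_eq_one, one_pow, one_mul,
      hβ]⟩
  choose β hβy hβm using hβ
  have hβ0 : ∀ l, β l ≠ 0 := by
    intro l h0
    have h1 := hβm l
    rw [h0, zero_pow hm0.ne'] at h1
    exact Finset.prod_ne_zero_iff.2 (fun j _ => pow_ne_zero _ (sub_ne_zero.2 (hαe l j))) h1.symm
  obtain ⟨j₀⟩ := h.nonempty hζ hm
  -- the pencil
  set b' : J → Option C' := fun j => if j = j₀ then none else some (b j) with hb'def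
  have hb' : Function.Surjective b' := by
    rintro (_ | B)
    · exact ⟨j₀, by simp [hb'def]⟩
    · by_contra hcon
      push Not at hcon
      have h1 : ∀ j, b j = B → j = j₀ := by
        intro j hj
        by_contra hne
        exact hcon j (by simp [hb'def, hne, hj])
      obtain ⟨j₁, hj₁⟩ := hb B
      have h2 : (Finset.univ.filter fun j => b j = B) = {j₁} := by
        ext j
        simp only [Finset.mem_filter, Finset.mem_univ, true_and, Finset.mem_singleton]
        constructor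
        · intro hj
          rw [h1 j hj, h1 j₁ hj₁]
        · rintro rfl
          exact hj₁
      have h3 := hsum B
      rw [h2, Finset.sum_singleton] at h3
      exact h.ndvd j₁ h3
  set q : k[X] := ∏ l, (X - C (α l)) with hq
  have hqm : q.Monic := monic_prod_of_monic _ _ fun l _ => monic_X_sub_C _
  have hqn : q.natDegree = n := by
    rw [hq, natDegree_prod_of_monic _ _ fun l _ => monic_X_sub_C _]
    simp
  obtain ⟨p, γ, hpd, hγ0, hpe⟩ := exists_pencil h.inj hb' hqm (by
    rw [hqn, Fintype.card_option]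
    omega)
  obtain ⟨T, S, s₀, s₁, B, hS, hs₀, hs₁⟩ := exists_base (b := b) hm0 hsum j₀ hγ0
  obtain ⟨F, _, _, _, _, _, _, X', Y', hX', hY'⟩ := exists_cover hm0 hqm hqn hpd T
    (∏ j, (X - C (e j)) ^ a j)
  have hY'' : ∀ i, Y' i ^ m = ∏ j, (X' i - algebraMap k F (e j)) ^ a j := by
    intro i
    rw [hY' i, map_prod]
    simp
  -- the morphism
  have hcomp := fun i => h.component hζ hm0 (hY'' i)
  choose ψ hψ hψ' using hcomp
  set φ : Place k F → ∀ _ : Fin n, Place k L := fun u i => ψ i u with hφ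
  have hmor : IsMorphism φ := by
    intro i
    exact hψ i
  -- the points of the base
  have hXt : Transcendental k (algebraMap (RatFunc k) F RatFunc.X) := by
    have : Transcendental k (RatFunc.X : RatFunc k) := RatFunc.transcendental_X
    intro hcon
    apply this
    have h2 : IsAlgebraic k (algebraMap (RatFunc k) F RatFunc.X) ↔ IsAlgebraic k (RatFunc.X : RatFunc k) :=
      isAlgebraic_algebraMap_iff (algebraMap (RatFunc k) F).injective
    exact h2.1 hcon
  obtain ⟨v, hv⟩ := exists_place hXt s₀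
  obtain ⟨w, hw⟩ := exists_place hXt s₁
  -- product of the `y`
  have hev : ∀ c : k, ∏ i, (algebraMap k F c - X' i) = algebraMap k F (q.eval c) +
      algebraMap (RatFunc k) F T * algebraMap k F (p.eval c) := by
    intro c
    have h1 := congrArg (Polynomial.eval (algebraMap k F c)) hX'
    rw [eval_add, eval_mul, eval_C, eval_map_algebraMap, eval_map_algebraMap, eval_prod] at h1
    simp only [eval_sub, eval_X, eval_C] at h1
    rw [← h1, aeval_algebraMap_apply, aeval_algebraMap_apply]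
    rfl
  have hRC : ∀ c : k, algebraMap (RatFunc k) F (RatFunc.C c) = algebraMap k F c := by
    intro c
    rw [← RatFunc.algebraMap_eq_C, ← IsScalarTower.algebraMap_apply]
  have hev' : ∀ j, ∏ i, (X' i - algebraMap k F (e j)) = (∏ l, algebraMap k F (α l - e j)) *
      algebraMap (RatFunc k) F (1 + T * RatFunc.C (γ (b' j))) := by
    intro j
    have h1 : ∏ i, (X' i - algebraMap k F (e j)) = (-1) ^ n * ∏ i, (algebraMap k F (e j) - X' i) := by
      rw [show ((-1 : F) ^ n) = ∏ _i : Fin n, (-1 : F) by simp, ← Finset.prod_mul_distrib]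
      exact Finset.prod_congr rfl fun i _ => by ring
    have h2 : (∏ l, algebraMap k F (α l - e j)) = (-1) ^ n * algebraMap k F (q.eval (e j)) := by
      rw [hq, eval_prod, map_prod, show ((-1 : F) ^ n) = ∏ _i : Fin n, (-1 : F) by simp,
        ← Finset.prod_mul_distrib]
      refine Finset.prod_congr rfl fun i _ => ?_
      rw [eval_sub, eval_X, eval_C, map_sub, map_sub]
      ring
    rw [h1, h2, hev, hpe, map_mul, map_add, map_one, map_mul, hRC]
    ring
  have hprod : (∏ i, Y' i) ^ m =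
      (algebraMap k F (∏ l, β l) * algebraMap (RatFunc k) F S) ^ m := by
    rw [← Finset.prod_pow, Finset.prod_congr rfl fun i _ => hY'' i, Finset.prod_comm, mul_pow,
      ← map_pow, ← map_pow, hS, ← Finset.prod_pow, Finset.prod_congr rfl fun l _ => hβm l,
      Finset.prod_comm (f := fun l j => (α l - e j) ^ a j), map_prod, map_prod,
      ← Finset.prod_mul_distrib]
    refine Finset.prod_congr rfl fun j _ => ?_
    rw [Finset.prod_pow, hev', mul_pow, Finset.prod_pow, ← map_prod, map_pow, map_pow]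
  have hζF : IsPrimitiveRoot (algebraMap k F ζ) m :=
    hζ.map_of_injective (algebraMap k F).injective
  have hS0 : algebraMap (RatFunc k) F S ≠ 0 := by
    intro h0
    have h1 := (hs₀ v hv).2
    rw [h0] at h1
    have h2 : v.At 0 (0 : k) := by simpa using Place.at_const (v := v) (0 : k)
    exact zero_ne_one (h2.unique h1)
  have hne : algebraMap k F (∏ l, β l) * algebraMap (RatFunc k) F S ≠ 0 := by
    refine mul_ne_zero ?_ hS0
    rw [_root_.map_ne_zero]
    exact Finset.prod_ne_zero_iff.2 fun l _ => hβ0 l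
  obtain ⟨κ, hκ⟩ : ∃ κ : ℕ, ∏ i, Y' i =
      algebraMap k F (ζ ^ κ * ∏ l, β l) * algebraMap (RatFunc k) F S := by
    have h1 : ((∏ i, Y' i) / (algebraMap k F (∏ l, β l) * algebraMap (RatFunc k) F S)) ^ m = 1 := by
      rw [div_pow, hprod, div_self (pow_ne_zero _ hne)]
    obtain ⟨κ, _, hκ⟩ := hζF.eq_pow_of_pow_eq_one h1
    refine ⟨κ, ?_⟩
    rw [eq_div_iff hne] at hκ
    rw [← hκ, map_mul, map_pow]
    ring
  -- the points above `s₀`
  have key₀ : ∀ u : Place k F, u.At (algebraMap (RatFunc k) F RatFunc.X) s₀ →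
      ω ^ ((m - 1) * κ) • op σ m ω n (Finsupp.single (φ u) 1) =
        op σ m ω n (Finsupp.single P 1) := by
    intro u hu
    obtain ⟨hT0, hS1⟩ := hs₀ u hu
    obtain ⟨ρ, hρ⟩ := exists_perm (u := u) hX' (by
      have := hpd
      rwa [degree_eq_natDegree hqm.ne_zero, hqn] at this) hT0
    have h1 : ∀ i, ∃ r : ℕ, u.At (Y' i) (ζ ^ r * β (ρ i)) := by
      intro i
      have h2 : u.At (Y' i ^ m) (β (ρ i) ^ m) := by
        rw [hβm, hY'']
        exact Place.At.prod fun j _ => ((hρ i).sub (Place.at_const (e j))).pow _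
      obtain ⟨r, _, hr⟩ := Place.exists_root_at hζ hm0 h2
      exact ⟨r, hr⟩
    choose r hr using h1
    have h2 : ζ ^ (∑ i, r i) = ζ ^ κ := by
      have h3 : u.At (∏ i, Y' i) (∏ i, (ζ ^ r i * β (ρ i))) := Place.At.prod fun i _ => hr i
      have h4 : u.At (∏ i, Y' i) (ζ ^ κ * (∏ l, β l) * 1) := by
        rw [hκ]
        exact (Place.at_const _).mul hS1
      have h5 := h3.unique h4
      rw [Finset.prod_mul_distrib, Finset.prod_pow_eq_pow_sum, mul_one,
        Equiv.prod_comp ρ β] at h5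
      exact mul_right_cancel₀ (Finset.prod_ne_zero_iff.2 fun l _ => hβ0 l) h5
    have h3 : φ u = fun i => (P (ρ i)).map (σ ^ ((m - 1) * r i)) := by
      funext i
      have hx1 := (hψ' i u _).1 (hρ i)
      have hy1 := (hψ' i u _).2 (hr i)
      have hs := h.symm_act ((m - 1) * r i)
      have hz : ζ ^ ((m - 1) * r i) * ζ ^ r i = 1 := by
        rw [← pow_add, show (m - 1) * r i + r i = m * r i by
          obtain ⟨m', rfl⟩ := Nat.exists_eq_succ_of_ne_zero hm0.ne'
          simp only [Nat.succ_eq_add_one, Nat.add_sub_cancel]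
          ring, pow_mul, hζ.pow_eq_one, one_pow]
      refine h.unique hm0 (mul_ne_zero (pow_ne_zero _ (hζ.ne_zero hm0.ne')) (hβ0 (ρ i))) hx1 hy1 ?_ ?_
      · rw [Place.at_map, hs.1]
        exact hα _
      · rw [Place.at_map]
        have h4 : (σ ^ ((m - 1) * r i)).symm y = algebraMap k L (ζ ^ r i) * y := by
          have h5 : algebraMap k L ζ ^ ((m - 1) * r i) ≠ 0 :=
            pow_ne_zero _ (by rw [_root_.map_ne_zero]; exact hζ.ne_zero hm0.ne')
          apply mul_left_cancel₀ h5
          rw [hs.2, ← mul_assoc, ← map_pow, ← map_mul, hz, map_one, one_mul]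
        rw [h4]
        exact (Place.at_const _).mul (hβy _)
    have h4 : ω ^ ((m - 1) * κ) = ω ^ (∑ i, (m - 1) * r i) := by
      rw [← Finset.mul_sum, mul_comm (m - 1), mul_comm (m - 1), pow_mul, pow_mul]
      congr 1
      have hz0 : ζ ≠ 0 := hζ.ne_zero hm0.ne'
      have hw0 : ω ≠ 0 := hω.ne_zero hm0.ne'
      have h5 : ζ ^ (((∑ i, r i : ℕ) : ℤ) - (κ : ℤ)) = 1 := by
        rw [zpow_sub₀ hz0, zpow_natCast, zpow_natCast, h2, div_self (pow_ne_zero _ hz0)]
      have h6 := (hω.zpow_eq_one_iff_dvd _).2 ((hζ.zpow_eq_one_iff_dvd _).1 h5)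
      rw [zpow_sub₀ hw0, zpow_natCast, zpow_natCast, div_eq_one_iff_eq (pow_ne_zero _ hw0)] at h6
      exact h6.symm
    rw [h3, h4]
    exact op_perm hm0 hσ hω.pow_eq_one P ρ _
  -- the points above `s₁`
  have key₁ : ∀ u : Place k F, u.At (algebraMap (RatFunc k) F RatFunc.X) s₁ →
      op σ m ω n (Finsupp.single (φ u) 1) = 0 := by
    intro u hu
    have h1 := hs₁ u hu
    obtain ⟨j, hj⟩ := hb' B
    have h2 : u.Vanishes (∏ i, (X' i - algebraMap k F (e j))) := by
      rw [hev' j, hj]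
      refine Place.Vanishes.mul' u h1 ?_
      exact prod_mem fun l _ => u.const_mem _
    obtain ⟨i, _, hi⟩ := u.vanishes_prod h2
    obtain ⟨d, hd, hdm, hfix⟩ := h.special hζ hm ((hψ' i u (e j)).1 hi)
    exact op_special hm0 hσ hω hd hdm hfix
  -- conclusion
  have hup : ∀ {u : Place k F} {c : k}, u.At (algebraMap (RatFunc k) F RatFunc.X) c →
      ∀ τ : F ≃ₐ[RatFunc k] F,
        (u.map (τ.restrictScalars k)).At (algebraMap (RatFunc k) F RatFunc.X) c := by
    intro u c hu τ
    rw [Place.at_map]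
    have : (τ.restrictScalars k).symm (algebraMap (RatFunc k) F RatFunc.X) =
        algebraMap (RatFunc k) F RatFunc.X := τ.symm.commutes _
    rw [this]
    exact hu
  have hvan : ∀ {u : Place k F} {c : k}, u.At (algebraMap (RatFunc k) F RatFunc.X) c →
      u.Vanishes (algebraMap (RatFunc k) F (RatFunc.X - RatFunc.C c)) := by
    intro u c hu
    rw [map_sub, hRC]
    exact hu
  have hrel : (∑ τ : F ≃ₐ[RatFunc k] F,
      (Finsupp.single (φ (v.map (τ.restrictScalars k))) (1 : R) -
        Finsupp.single (φ (w.map (τ.restrictScalars k))) 1)) ∈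
          ratEquiv k (fun _ : Fin n => L) R :=
    Submodule.subset_span ⟨F, _, _, _, ‹_›, ‹_›, ‹_›, φ, hmor, s₀, s₁, v, w, hvan hv, hvan hw, rfl⟩
  have hrel' := op_mem σ m ω n hrel
  rw [map_sum] at hrel'
  have hω0 : ω ^ ((m - 1) * κ) ≠ 0 := pow_ne_zero _ (hω.ne_zero hm0.ne')
  have hfin : ω ^ ((m - 1) * κ) • ∑ τ : F ≃ₐ[RatFunc k] F, op σ m ω n
      (Finsupp.single (φ (v.map (τ.restrictScalars k))) (1 : R) -
        Finsupp.single (φ (w.map (τ.restrictScalars k))) 1) =
      (Fintype.card (F ≃ₐ[RatFunc k] F) : R) • op σ m ω n (Finsupp.single P 1) := by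
    rw [Finset.smul_sum, Finset.sum_congr rfl (g := fun _ => op σ m ω n (Finsupp.single P 1))]
    · rw [Finset.sum_const, Finset.card_univ, Nat.cast_smul_eq_nsmul]
    · intro τ _
      rw [map_sub, key₁ _ (hup hw τ), sub_zero, key₀ _ (hup hv τ)]
  have hmem := Submodule.smul_mem _ (ω ^ ((m - 1) * κ)) hrel'
  rw [hfin] at hmem
  have hcard : (Fintype.card (F ≃ₐ[RatFunc k] F) : R) ≠ 0 :=
    Nat.cast_ne_zero.2 Fintype.card_ne_zero
  have := Submodule.smul_mem _ (Fintype.card (F ≃ₐ[RatFunc k] F) : R)⁻¹ hmem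
  rwa [smul_smul, inv_mul_cancel₀ hcard, one_smul] at this

theorem Cyclic.main (h : Cyclic m ζ e a σ x y) (hm : 1 < m) (hζ : IsPrimitiveRoot ζ m)
    (hω : IsPrimitiveRoot ω m) {b : J → C'} (hb : Function.Surjective b)
    (hsum : ∀ B, m ∣ ∑ j with b j = B, a j) {n : ℕ}
    (hn : Fintype.card J ≤ n + Fintype.card C') (P : Fin n → Place k L) :
    op σ m ω n (Finsupp.single P 1) ∈ ratEquiv k (fun _ : Fin n => L) R := by
  have hm0 : 0 < m := by omega
  have hσ : σ ^ m = 1 := h.pow_eq_one hζ.pow_eq_one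
  have hsum' : m ∣ ∑ j, a j := by
    rw [← Finset.sum_fiberwise Finset.univ b a]
    exact Finset.dvd_sum fun B _ => hsum B
  obtain ⟨e', x', y', h', hreg⟩ := h.change hm0 hsum' P
  have hα : ∀ l, ∃ α, (P l).At x' α := fun l => h'.exists_at hm0 (hreg l)
  choose α hα using hα
  by_cases hsp : ∃ l j, α l = e' j
  · obtain ⟨l, j, hlj⟩ := hsp
    obtain ⟨d, hd, hdm, hfix⟩ := h'.special hζ hm (hlj ▸ hα l)
    rw [op_special hm0 hσ hω hd hdm hfix]
    exact Submodule.zero_mem _
  · push Not at hsp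
    exact h'.general hm hζ hω hb hsum hn P hα hsp

end Main

end Pool.Agent.ZCyc
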