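import Pool.Agent.ZCyc.Curve
import Pool.Agent.ZCyc.Unique

/-!
# A point with `y ≠ 0` is determined by its coordinates (package ZC1)
-/

open Polynomial

namespace Pool.Agent.ZCyc

universe u w

section P1
variable {k : Type u} [Field k] {m : ℕ} {ζ : k} {J : Type} [Fintype J] {e : J → k} {a : J → ℕ}
  {L : Type u} [Field L] [Algebra k L] {σ : L ≃ₐ[k] L} {x y : L}

private lemma zc1_val (h : Cyclic m ζ e a σ x y) {P : Place k L} {α : k} (hx : P.At x α) :
    P.At (y ^ m) (∏ j, (α - e j) ^ a j) := by
  rw [h.eqn]
  exact Place.At.prod fun j _ => (hx.sub (Place.at_const (e j))).pow _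

/-- P1: a point with `y ≠ 0` is determined by its coordinates -/
theorem Cyclic.unique [CharZero k] (h : Cyclic m ζ e a σ x y) (hm : 0 < m) {P Q : Place k L}
    {α β : k} (hβ : β ≠ 0) (hPx : P.At x α) (hPy : P.At y β) (hQx : Q.At x α) (hQy : Q.At y β) :
    P = Q := by
  classical
  have hβm : β ^ m = ∏ j, (α - e j) ^ a j := (hPy.pow m).unique (zc1_val h hPx)
  let f : k[X] := ∏ j, (X - C (e j)) ^ a j
  have hfe : f.eval α = β ^ m := by
    rw [hβm]
    simp only [f]
    rw [eval_prod]
    refine Finset.prod_congr rfl fun j _ => ?_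
    rw [eval_pow, eval_sub, eval_X, eval_C]
  have hfy : aeval x f = y ^ m := by
    rw [h.eqn]
    simp only [f]
    rw [map_prod]
    refine Finset.prod_congr rfl fun j _ => ?_
    rw [map_pow, map_sub, aeval_X, aeval_C]
  let S : Finset L := {x, y}
  have hxS : x ∈ Algebra.adjoin k (S : Set L) := Algebra.subset_adjoin (by simp [S])
  have hyS : y ∈ Algebra.adjoin k (S : Set L) := Algebra.subset_adjoin (by simp [S])
  have hc : ∀ z : k, algebraMap k L z ∈ Algebra.adjoin k (S : Set L) :=
    fun z => Subalgebra.algebraMap_mem _ z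
  refine Place.eq_of_uniformizer (S := S) (by simpa [S] using h.gen)
    (fun s => if s = x then α else β) ?_ ?_ (π := x - algebraMap k L α) (sub_mem hxS (hc α)) hPx ?_
  · intro s hs
    by_cases hsx : s = x
    · rw [if_pos hsx, hsx]
      exact hPx
    · rw [if_neg hsx]
      have : s = y := by
        simp only [S, Finset.mem_insert, Finset.mem_singleton] at hs
        tauto
      rw [this]
      exact hPy
  · intro s hs
    by_cases hsx : s = x
    · rw [if_pos hsx, hsx]
      exact hQx
    · rw [if_neg hsx]
      have : s = y := by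
        simp only [S, Finset.mem_insert, Finset.mem_singleton] at hs
        tauto
      rw [this]
      exact hQy
  · intro s hs
    by_cases hsx : s = x
    · refine ⟨1, one_mem _, 1, one_mem _, ?_, ?_⟩
      · have h1 : P.At (1 : L) 1 := by
          have := Place.at_const (v := P) (1 : k)
          simpa using this
        intro h2
        exact one_ne_zero (h1.unique (Place.at_zero_iff.2 h2))
      · rw [if_pos hsx, hsx]
    · have hsy : s = y := by
        simp only [S, Finset.mem_insert, Finset.mem_singleton] at hs
        tauto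
      obtain ⟨q, hq⟩ := X_sub_C_dvd_sub_C_eval (a := α) (p := f)
      refine ⟨∑ i ∈ Finset.range m, y ^ i * (algebraMap k L β) ^ (m - 1 - i), ?_, aeval x q, ?_,
        ?_, ?_⟩
      · exact sum_mem fun i _ => mul_mem (pow_mem hyS _) (pow_mem (hc β) _)
      · exact Algebra.adjoin_mono (by simp [S]) (aeval_mem_adjoin_singleton (R := k) x)
      · have h1 : P.At (∑ i ∈ Finset.range m, y ^ i * (algebraMap k L β) ^ (m - 1 - i))
            (∑ i ∈ Finset.range m, β ^ i * β ^ (m - 1 - i)) :=
          Place.At.sum fun i _ => (hPy.pow i).mul ((Place.at_const β).pow _)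
        intro h2
        have h3 := h1.unique (Place.at_zero_iff.2 h2)
        have h4 : (∑ i ∈ Finset.range m, β ^ i * β ^ (m - 1 - i)) = (m : k) * β ^ (m - 1) := by
          rw [Finset.sum_congr rfl (g := fun _ => β ^ (m - 1)), Finset.sum_const,
            Finset.card_range, nsmul_eq_mul]
          intro i hi
          rw [Finset.mem_range] at hi
          rw [← pow_add]
          congr 1
          omega
        rw [h4] at h3
        rcases mul_eq_zero.1 h3 with h5 | h5
        · exact hm.ne' (by exact_mod_cast h5)
        · exact pow_ne_zero _ hβ h5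
      · rw [if_neg hsx, hsy, mul_comm, Commute.geom_sum₂_mul (Commute.all _ _), ← hfy, ← map_pow,
          ← hfe]
        have h1 := congrArg (aeval x) hq
        rw [map_sub, aeval_C, map_mul, map_sub, aeval_X, aeval_C] at h1
        exact h1

end P1

end Pool.Agent.ZCyc
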